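import Pool.Agent.SYS.PL.LawA

/-!
# SYS-PL-LawB: exponential moments of the steps
-/

namespace SYS.Num

open Real

variable {x : ℝ}

private theorem exp_two_mul_nat (δ : ℝ) (j : ℕ) : exp (δ * (2 * j : ℕ)) = exp (2 * δ) ^ j := by
  rw [← Real.exp_nat_mul]
  congr 1
  push_cast
  ring

private theorem hsum_aux {cc ia b : ℝ} {V : ℕ → ℕ → ℝ} {w : ℕ → ℝ} (hcc0 : 0 ≤ cc) (hia0 : 0 ≤ ia)
    (hVs : ∀ k, Summable (V k)) (hVw : ∀ k, ∑' a, V k a = w k) (hV0 : ∀ k a, 0 ≤ V k a)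
    (hK : ∃ K : ℝ, 0 < K ∧ ∀ k : ℕ, w k ≤ K * (k + 1) * b ^ k) (hb0 : 0 ≤ b) (hb : b * ia < 1) :
    Summable fun t : ℕ × ℕ => cc * V t.1 t.2 * ia ^ t.1 := by
  have hnn2 : ∀ t : ℕ × ℕ, 0 ≤ cc * V t.1 t.2 * ia ^ t.1 := by
    intro t
    have := hV0 t.1 t.2
    positivity
  rw [summable_prod_of_nonneg hnn2]
  have hw0 : ∀ k, 0 ≤ w k := fun k => by
    rw [← hVw k]
    exact tsum_nonneg fun a => hV0 k a
  constructor
  · intro k
    exact ((hVs k).mul_left cc).mul_right (ia ^ k)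
  · obtain ⟨K, hK, hKle⟩ := hK
    have hts : ∀ k : ℕ, ∑' a : ℕ, cc * V k a * ia ^ k = cc * w k * ia ^ k := by
      intro k
      rw [tsum_mul_right, tsum_mul_left, hVw]
    have hle : ∀ k : ℕ, cc * w k * ia ^ k ≤ cc * K * ((k + 1) * (b * ia) ^ k) := by
      intro k
      have h2 : cc * w k * ia ^ k ≤ cc * (K * (k + 1) * b ^ k) * ia ^ k := by
        apply mul_le_mul_of_nonneg_right _ (by positivity)
        exact mul_le_mul_of_nonneg_left (hKle k) hcc0
      refine h2.trans (le_of_eq ?_)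
      rw [mul_pow]
      ring
    have hsum2 : Summable fun k : ℕ => cc * w k * ia ^ k := by
      refine Summable.of_nonneg_of_le (fun k => ?_) hle ?_
      · have := hw0 k
        positivity
      refine Summable.mul_left _ ?_
      have hr : ‖b * ia‖ < 1 := by
        rw [Real.norm_eq_abs, abs_of_nonneg (mul_nonneg hb0 hia0)]
        exact hb
      have h1 : Summable fun k : ℕ => (k : ℝ) ^ 1 * (b * ia) ^ k :=
        summable_pow_mul_geometric_of_norm_lt_one 1 hr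
      have h2 : Summable fun k : ℕ => (b * ia) ^ k := summable_geometric_of_norm_lt_one hr
      refine (h1.add h2).congr fun k => ?_
      rw [pow_one]
      ring
    exact hsum2.congr fun k => (hts k).symm

/-- Exponential moments. -/
theorem expm (hx : 0 < x) :
    ∃ δ : ℝ, 0 < δ ∧ Summable fun t : ℕ × ℕ => qq x t.1 t.2 * exp (δ * (t.1 + t.2)) := by
  obtain ⟨x', hx', _, hB, hy⟩ := exists_near hx
  have hyp := yy_pos x
  have hyp' := yy_pos x'
  have hA : 0 < AA x := lt_trans (by norm_num) (AA_gt x)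
  have hBp := BB_pos x'
  refine ⟨Real.log (yy x' / yy x) / 2, ?_, ?_⟩
  · refine div_pos (Real.log_pos ?_) (by norm_num)
    rw [one_lt_div hyp]
    exact hy
  obtain ⟨δ, hδ⟩ : ∃ δ, δ = Real.log (yy x' / yy x) / 2 := ⟨_, rfl⟩
  rw [← hδ]
  have hexp : exp (2 * δ) = yy x' / yy x := by
    rw [hδ, mul_div_cancel₀ _ (by norm_num : (2 : ℝ) ≠ 0), Real.exp_log (div_pos hyp' hyp)]
  -- the comparison
  have hle : ∀ t : ℕ × ℕ, qq x t.1 t.2 * exp (δ * (t.1 + t.2)) ≤
      yy x / AA x ^ 2 * (W t.1 t.2 * yy x' ^ ((t.2 + t.1) / 2)) * (1 / AA x) ^ t.1 := by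
    rintro ⟨k, a⟩
    show qq x k a * exp (δ * (k + a)) ≤
      yy x / AA x ^ 2 * (W k a * yy x' ^ ((a + k) / 2)) * (1 / AA x) ^ k
    by_cases hev : Even (a + k)
    · obtain ⟨j, hj⟩ := hev
      have hj2 : a + k = 2 * j := by omega
      have hj3 : (a + k) / 2 = j := by omega
      have e1 : exp (δ * ((k : ℝ) + a)) = exp (2 * δ) ^ j := by
        rw [← exp_two_mul_nat]
        congr 2
        rw [← hj2]
        push_cast
        ring
      refine le_of_eq ?_
      unfold qq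
      rw [e1, hexp, hj3, div_pow]
      have h1 : yy x ≠ 0 := hyp.ne'
      have h2 : AA x ≠ 0 := hA.ne'
      rw [one_div, inv_pow, pow_add, pow_add, pow_one]
      field_simp
    · unfold qq
      rw [W_odd hev]
      simp
  have hnn : ∀ t : ℕ × ℕ, 0 ≤ qq x t.1 t.2 * exp (δ * (t.1 + t.2)) := fun t =>
    mul_nonneg (qq_nonneg x _ _) (Real.exp_pos _).le
  refine Summable.of_nonneg_of_le hnn hle ?_
  obtain ⟨cc, hcc⟩ : ∃ cc, cc = yy x / AA x ^ 2 := ⟨_, rfl⟩
  obtain ⟨ia, hia⟩ : ∃ ia, ia = 1 / AA x := ⟨_, rfl⟩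
  obtain ⟨V, hV⟩ : ∃ V : ℕ → ℕ → ℝ, V = fun k a => W k a * yy x' ^ ((a + k) / 2) := ⟨_, rfl⟩
  have hcc0 : 0 ≤ cc := by rw [hcc]; positivity
  have hia0 : 0 ≤ ia := by rw [hia]; positivity
  have hVs : ∀ k, Summable (V k) := fun k => by rw [hV]; exact summable_W hx' k
  have hVw : ∀ k, ∑' a, V k a = wk x' k := fun k => by rw [hV]; rfl
  have hV0 : ∀ k a, 0 ≤ V k a := fun k a => by
    rw [hV]
    have := W_nonneg k a
    positivity
  have hfin := hsum_aux hcc0 hia0 hVs hVw hV0 (wk_le hx') (BB_pos x').le (by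
    rw [hia, mul_one_div, div_lt_one hA]
    exact hB)
  refine hfin.congr fun t => ?_
  rw [hV, hcc, hia]

private theorem dom {δ K : ℝ} (hs : Summable fun t : ℕ × ℕ => qq x t.1 t.2 * exp (δ * (t.1 + t.2)))
    {g : ℕ × ℕ → ℝ} (hg : ∀ s, |g s| ≤ K * exp (δ * (s.1 + s.2))) :
    Summable fun s : ℕ × ℕ => qq x s.1 s.2 * g s := by
  refine Summable.of_norm_bounded
    (g := fun s : ℕ × ℕ => K * (qq x s.1 s.2 * exp (δ * (s.1 + s.2)))) (hs.mul_left K) ?_
  intro s
  rw [Real.norm_eq_abs, abs_mul, abs_of_nonneg (qq_nonneg x _ _)]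
  have h1 := mul_le_mul_of_nonneg_left (hg s) (qq_nonneg x s.1 s.2)
  refine h1.trans (le_of_eq ?_)
  ring

private theorem exp_one (z : ℝ) : exp z ≤ 1 + z * exp z := by
  have h1 : 1 - z ≤ exp (-z) := by
    have := Real.add_one_le_exp (-z)
    linarith
  have h2 : exp z * (1 - z) ≤ exp z * exp (-z) := mul_le_mul_of_nonneg_left h1 (Real.exp_pos z).le
  rw [← Real.exp_add, add_neg_cancel, Real.exp_zero] at h2
  linarith

private theorem exp_sec {z : ℝ} (hz : 0 ≤ z) : exp z ≤ 1 + z + z ^ 2 * exp z := by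
  have h1 := exp_one z
  have h2 := mul_le_mul_of_nonneg_left h1 hz
  nlinarith

private theorem exp_neg_sec {t : ℝ} (ht : 0 ≤ t) : exp (-t) ≤ 1 - t + t ^ 2 := by
  have h1 : t + 1 ≤ exp t := Real.add_one_le_exp t
  have h2 : exp (-t) * (t + 1) ≤ exp (-t) * exp t := mul_le_mul_of_nonneg_left h1 (Real.exp_pos _).le
  rw [← Real.exp_add, neg_add_cancel, Real.exp_zero] at h2
  have h3 : (1 - t + t ^ 2) * (t + 1) = 1 + t ^ 3 := by ring
  have h4 : 0 ≤ t ^ 3 := by positivity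
  have h5 : exp (-t) * (t + 1) ≤ (1 - t + t ^ 2) * (t + 1) := by rw [h3]; linarith
  exact le_of_mul_le_mul_right h5 (by linarith)

private theorem sq_le_exp {c u : ℝ} (hc : 0 < c) (hu : 0 ≤ u) : u ^ 2 ≤ 4 / c ^ 2 * exp (c * u) := by
  have h1 : c * u / 2 ≤ exp (c * u / 2) := by
    have := Real.add_one_le_exp (c * u / 2)
    linarith
  have h2 : (c * u / 2) ^ 2 ≤ exp (c * u / 2) ^ 2 := pow_le_pow_left₀ (by positivity) h1 2
  have h3 : exp (c * u / 2) ^ 2 = exp (c * u) := by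
    rw [← Real.exp_nat_mul]
    congr 1
    push_cast
    ring
  rw [h3] at h2
  have h4 : u ^ 2 = 4 / c ^ 2 * (c * u / 2) ^ 2 := by
    field_simp
    ring
  rw [h4]
  exact mul_le_mul_of_nonneg_left h2 (by positivity)

private theorem lin_le_exp {c u : ℝ} (hc : 0 < c) : u ≤ 1 / c * exp (c * u) := by
  have h1 : c * u ≤ exp (c * u) := by
    have := Real.add_one_le_exp (c * u)
    linarith
  have h4 : u = 1 / c * (c * u) := by
    field_simp
  calc u = 1 / c * (c * u) := h4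
    _ ≤ 1 / c * exp (c * u) := mul_le_mul_of_nonneg_left h1 (by positivity)

/-- Tilted step: for small `t > 0` and much smaller `e > 0` the mean of `exp (-t dp + e dv)` is
less than `1`. -/
theorem tilt (hx : 0 < x) : ∃ t₀ : ℝ, 0 < t₀ ∧ ∀ t, 0 < t → t ≤ t₀ → ∃ e₀ : ℝ, 0 < e₀ ∧
    ∃ ρ : ℝ, ρ < 1 ∧ ∀ e, 0 ≤ e → e ≤ e₀ →
      (Summable fun s : ℕ × ℕ => qq x s.1 s.2 * exp (t * (s.1 + 2) + e * s.2)) ∧
      AA x * exp (-t + e) + 2 * ∑' s : ℕ × ℕ, qq x s.1 s.2 * exp (t * (s.1 + 2) + e * s.2) ≤ ρ := by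
  obtain ⟨δ, hδ, hs⟩ := expm hx
  have hA : 0 < AA x := lt_trans (by norm_num) (AA_gt x)
  have hd := dr_pos hx
  obtain ⟨c, hc⟩ : ∃ c, c = δ / 4 := ⟨_, rfl⟩
  have hc0 : 0 < c := by rw [hc]; positivity
  have hδc : δ = 4 * c := by rw [hc]; ring
  -- the two dominated functions
  have hg2 : ∀ s : ℕ × ℕ, |((s.1 : ℝ) + 2) ^ 2 * exp (c * (s.1 + 2))| ≤
      (4 / c ^ 2 * exp (4 * c)) * exp (δ * (s.1 + s.2)) := by
    rintro ⟨k, a⟩
    show |((k : ℝ) + 2) ^ 2 * exp (c * (k + 2))| ≤ (4 / c ^ 2 * exp (4 * c)) * exp (δ * (k + a))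
    rw [abs_of_nonneg (by positivity)]
    calc ((k : ℝ) + 2) ^ 2 * exp (c * (k + 2)) ≤ 4 / c ^ 2 * exp (c * (k + 2)) * exp (c * (k + 2)) :=
          mul_le_mul_of_nonneg_right (sq_le_exp hc0 (by positivity)) (Real.exp_pos _).le
      _ = 4 / c ^ 2 * exp (2 * c * k + 4 * c) := by
          rw [mul_assoc, ← Real.exp_add]
          congr 2
          ring
      _ ≤ 4 / c ^ 2 * exp (4 * c + δ * (k + a)) := by
          apply mul_le_mul_of_nonneg_left _ (by positivity)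
          apply Real.exp_le_exp.2
          rw [hδc]
          have h1 : 0 ≤ c * (k : ℝ) := by positivity
          have h2 : 0 ≤ c * (a : ℝ) := by positivity
          nlinarith
      _ = _ := by
          rw [Real.exp_add]
          ring
  have hg3 : ∀ s : ℕ × ℕ, |exp (c * (s.1 + 2)) * ((s.2 : ℝ) * exp (c * s.2))| ≤
      (1 / c * exp (2 * c)) * exp (δ * (s.1 + s.2)) := by
    rintro ⟨k, a⟩
    show |exp (c * (k + 2)) * ((a : ℝ) * exp (c * a))| ≤ (1 / c * exp (2 * c)) * exp (δ * (k + a))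
    rw [abs_of_nonneg (by positivity)]
    calc exp (c * (k + 2)) * ((a : ℝ) * exp (c * a)) ≤
          exp (c * (k + 2)) * (1 / c * exp (c * a) * exp (c * a)) := by
          apply mul_le_mul_of_nonneg_left _ (Real.exp_pos _).le
          exact mul_le_mul_of_nonneg_right (lin_le_exp hc0) (Real.exp_pos _).le
      _ = 1 / c * exp (c * (k + 2) + c * a + c * a) := by
          rw [Real.exp_add, Real.exp_add]
          ring
      _ ≤ 1 / c * exp (2 * c + δ * (k + a)) := by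
          apply mul_le_mul_of_nonneg_left _ (by positivity)
          apply Real.exp_le_exp.2
          rw [hδc]
          have h1 : 0 ≤ c * (k : ℝ) := by positivity
          have h2 : 0 ≤ c * (a : ℝ) := by positivity
          nlinarith
      _ = _ := by
          rw [Real.exp_add]
          ring
  have hs2 := dom hs hg2
  have hs3 := dom hs hg3
  obtain ⟨C2, hC2⟩ : ∃ C, C = ∑' s : ℕ × ℕ, qq x s.1 s.2 * (((s.1 : ℝ) + 2) ^ 2 * exp (c * (s.1 + 2))) :=
    ⟨_, rfl⟩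
  obtain ⟨C3, hC3⟩ : ∃ C, C = ∑' s : ℕ × ℕ, qq x s.1 s.2 *
    (exp (c * (s.1 + 2)) * ((s.2 : ℝ) * exp (c * s.2))) := ⟨_, rfl⟩
  have hC2n : 0 ≤ C2 := by
    rw [hC2]
    refine tsum_nonneg fun s => mul_nonneg (qq_nonneg x _ _) (by positivity)
  have hC3n : 0 ≤ C3 := by
    rw [hC3]
    refine tsum_nonneg fun s => mul_nonneg (qq_nonneg x _ _) (by positivity)
  have hS2 : HasSum (fun s : ℕ × ℕ => qq x s.1 s.2 * (((s.1 : ℝ) + 2) ^ 2 * exp (c * (s.1 + 2)))) C2 := by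
    rw [hC2]
    exact hs2.hasSum
  have hS3 : HasSum (fun s : ℕ × ℕ => qq x s.1 s.2 *
      (exp (c * (s.1 + 2)) * ((s.2 : ℝ) * exp (c * s.2)))) C3 := by
    rw [hC3]
    exact hs3.hasSum
  -- summability of the tilted weights
  have hsum : ∀ t e : ℝ, 0 ≤ t → t ≤ c → 0 ≤ e → e ≤ c →
      Summable fun s : ℕ × ℕ => qq x s.1 s.2 * exp (t * (s.1 + 2) + e * s.2) := by
    intro t e ht htc he hec
    refine dom (K := exp (2 * c)) hs ?_
    rintro ⟨k, a⟩
    show |exp (t * (k + 2) + e * a)| ≤ exp (2 * c) * exp (δ * (k + a))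
    rw [abs_of_pos (Real.exp_pos _), ← Real.exp_add]
    apply Real.exp_le_exp.2
    rw [hδc]
    have h1 : t * ((k : ℝ) + 2) ≤ c * (k + 2) := mul_le_mul_of_nonneg_right htc (by positivity)
    have h2 : e * (a : ℝ) ≤ c * a := mul_le_mul_of_nonneg_right hec (by positivity)
    have h3 : 0 ≤ c * (k : ℝ) := by positivity
    have h4 : 0 ≤ c * (a : ℝ) := by positivity
    nlinarith
  have hP : ∀ t : ℝ, 0 ≤ t → t ≤ c →
      AA x * exp (-t) + 2 * ∑' s : ℕ × ℕ, qq x s.1 s.2 * exp (t * (s.1 + 2)) ≤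
        1 - t * dr x + t ^ 2 * (AA x + 2 * C2) := by
    intro t ht htc
    have hsm : Summable fun s : ℕ × ℕ => qq x s.1 s.2 * exp (t * (s.1 + 2)) := by
      have := hsum t 0 ht htc le_rfl hc0.le
      simpa using this
    have hmaj : HasSum (fun s : ℕ × ℕ => qq x s.1 s.2 + t * (((s.1 : ℝ) + 2) * qq x s.1 s.2) +
        t ^ 2 * (qq x s.1 s.2 * (((s.1 : ℝ) + 2) ^ 2 * exp (c * (s.1 + 2)))))
        ((1 - AA x) / 2 + t * ((AA x - dr x) / 2) + t ^ 2 * C2) :=
      ((mass hx).add ((mean hx).mul_left t)).add (hS2.mul_left (t ^ 2))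
    have hle := hasSum_le (fun s : ℕ × ℕ => ?_) hsm.hasSum hmaj
    · have h1 : AA x * exp (-t) ≤ AA x * (1 - t + t ^ 2) :=
        mul_le_mul_of_nonneg_left (exp_neg_sec ht) hA.le
      nlinarith
    · show qq x s.1 s.2 * exp (t * (s.1 + 2)) ≤ qq x s.1 s.2 + t * (((s.1 : ℝ) + 2) * qq x s.1 s.2) +
        t ^ 2 * (qq x s.1 s.2 * (((s.1 : ℝ) + 2) ^ 2 * exp (c * (s.1 + 2))))
      have h1 : exp (t * ((s.1 : ℝ) + 2)) ≤ 1 + t * (s.1 + 2) + (t * (s.1 + 2)) ^ 2 * exp (c * (s.1 + 2)) := by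
        have h2 := exp_sec (z := t * ((s.1 : ℝ) + 2)) (by positivity)
        have h3 : exp (t * ((s.1 : ℝ) + 2)) ≤ exp (c * (s.1 + 2)) :=
          Real.exp_le_exp.2 (mul_le_mul_of_nonneg_right htc (by positivity))
        have h4 := mul_le_mul_of_nonneg_left h3 (sq_nonneg (t * ((s.1 : ℝ) + 2)))
        linarith
      have h5 := mul_le_mul_of_nonneg_left h1 (qq_nonneg x s.1 s.2)
      refine h5.trans (le_of_eq ?_)
      ring
  obtain ⟨Q, hQ⟩ : ∃ Q, Q = AA x + 2 * C2 := ⟨_, rfl⟩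
  have hQ0 : 0 < Q := by rw [hQ]; linarith
  refine ⟨min c (dr x / (2 * Q)), lt_min hc0 (div_pos hd (by linarith)), ?_⟩
  intro t ht ht1
  have htc : t ≤ c := le_trans ht1 (min_le_left _ _)
  have htd : t * (2 * Q) ≤ dr x := by
    rw [← le_div_iff₀ (by linarith)]
    exact le_trans ht1 (min_le_right _ _)
  obtain ⟨P, hPdef⟩ : ∃ P, P = AA x * exp (-t) + 2 * ∑' s : ℕ × ℕ, qq x s.1 s.2 * exp (t * (s.1 + 2)) :=
    ⟨_, rfl⟩
  have hP1 : P < 1 := by
    have h1 := hP t ht.le htc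
    rw [← hPdef, ← hQ] at h1
    have h2 : t * (t * (2 * Q)) ≤ t * dr x := mul_le_mul_of_nonneg_left htd ht.le
    have h3 : 0 < t * dr x := mul_pos ht hd
    nlinarith
  obtain ⟨D, hD⟩ : ∃ D, D = AA x * exp c + 2 * C3 := ⟨_, rfl⟩
  have hD0 : 0 ≤ D := by rw [hD]; positivity
  refine ⟨min c ((1 - P) / (2 * (D + 1))), lt_min hc0 (div_pos (by linarith) (by linarith)), (1 + P) / 2,
    by linarith, ?_⟩
  intro e he he1
  have hec : e ≤ c := le_trans he1 (min_le_left _ _)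
  have heD : e * (2 * (D + 1)) ≤ 1 - P := by
    rw [← le_div_iff₀ (by linarith)]
    exact le_trans he1 (min_le_right _ _)
  refine ⟨hsum t e ht.le htc he hec, ?_⟩
  have hsm : Summable fun s : ℕ × ℕ => qq x s.1 s.2 * exp (t * (s.1 + 2)) := by
    have := hsum t 0 ht.le htc le_rfl hc0.le
    simpa using this
  have hmaj := hsm.hasSum.add (hS3.mul_left e)
  have hle := hasSum_le (fun s : ℕ × ℕ => ?_) (hsum t e ht.le htc he hec).hasSum hmaj
  · have h1 : AA x * exp (-t + e) ≤ AA x * exp (-t) + e * (AA x * exp c) := by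
      have h2 : exp e ≤ 1 + e * exp c := by
        have h3 := exp_one e
        have h4 : exp e ≤ exp c := Real.exp_le_exp.2 hec
        have h5 := mul_le_mul_of_nonneg_left h4 he
        linarith
      have h6 : exp (-t) ≤ 1 := by
        rw [Real.exp_le_one_iff]
        linarith
      have h7 : exp (-t + e) ≤ exp (-t) + e * exp c := by
        rw [Real.exp_add]
        have h8 := mul_le_mul_of_nonneg_left h2 (Real.exp_pos (-t)).le
        have h9 : exp (-t) * (e * exp c) ≤ 1 * (e * exp c) :=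
          mul_le_mul_of_nonneg_right h6 (by positivity)
        linarith
      have h10 := mul_le_mul_of_nonneg_left h7 hA.le
      linarith
    have h2 : AA x * exp (-t + e) + 2 * ∑' s : ℕ × ℕ, qq x s.1 s.2 * exp (t * (s.1 + 2) + e * s.2) ≤
        P + e * D := by
      rw [hPdef, hD]
      linarith
    have h3 : e * D ≤ e * (D + 1) := mul_le_mul_of_nonneg_left (by linarith) he
    linarith
  · show qq x s.1 s.2 * exp (t * (s.1 + 2) + e * s.2) ≤ qq x s.1 s.2 * exp (t * (s.1 + 2)) +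
      e * (qq x s.1 s.2 * (exp (c * (s.1 + 2)) * ((s.2 : ℝ) * exp (c * s.2))))
    have h1 : exp (t * ((s.1 : ℝ) + 2) + e * s.2) ≤ exp (t * (s.1 + 2)) +
        e * (exp (c * (s.1 + 2)) * ((s.2 : ℝ) * exp (c * s.2))) := by
      rw [Real.exp_add]
      have h2 : exp (e * (s.2 : ℝ)) ≤ 1 + e * (s.2 * exp (c * s.2)) := by
        have h3 := exp_one (e * (s.2 : ℝ))
        have h4 : exp (e * (s.2 : ℝ)) ≤ exp (c * s.2) :=
          Real.exp_le_exp.2 (mul_le_mul_of_nonneg_right hec (by positivity))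
        have h5 := mul_le_mul_of_nonneg_left h4 (show 0 ≤ e * (s.2 : ℝ) by positivity)
        linarith
      have h6 : exp (t * ((s.1 : ℝ) + 2)) ≤ exp (c * (s.1 + 2)) :=
        Real.exp_le_exp.2 (mul_le_mul_of_nonneg_right htc (by positivity))
      have h7 := mul_le_mul_of_nonneg_left h2 (Real.exp_pos (t * ((s.1 : ℝ) + 2))).le
      have h8 := mul_le_mul_of_nonneg_right h6 (show 0 ≤ e * ((s.2 : ℝ) * exp (c * s.2)) by positivity)
      linarith
    have h5 := mul_le_mul_of_nonneg_left h1 (qq_nonneg x s.1 s.2)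
    refine h5.trans (le_of_eq ?_)
    ring

end SYS.Num
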