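import Pool.Agent.SYS.PL.RwA
import Pool.Agent.SYS.BD.FH
import Pool.Agent.SYS.GR.Expo
import Pool.Agent.SYS.GR.Mean

/-!
# SYS-PL-RwB: visits of the random walk

Words of given endpoints (`down`), first hits upwards (`first`), all visits (`visits`).
-/

namespace SYS.Num

open Real Classical

variable {x : ℝ}

private theorem rwb_a (hx : 0 < x) : 0 < ∑' z : ℕ × ℕ, ((z.1 : ℝ) + 1) * qq x z.1 z.2 := by
  have h1 := mass hx
  have h2 := mean hx
  have h3 := h2.sub h1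
  have h4 : (fun t : ℕ × ℕ => ((t.1 : ℝ) + 2) * qq x t.1 t.2 - qq x t.1 t.2) =
      fun t : ℕ × ℕ => ((t.1 : ℝ) + 1) * qq x t.1 t.2 := by
    funext t
    ring
  rw [h4] at h3
  rw [h3.tsum_eq]
  have := dr_lt hx
  linarith

private noncomputable def rwbLaw (hx : 0 < x) : GR.Law where
  A := AA x
  q := qq x
  e := (expm hx).choose
  hA := AA_gt x
  hq := qq_nonneg x
  he := (expm hx).choose_spec.1
  hs := (expm hx).choose_spec.2
  mass := by
    rw [(mass hx).tsum_eq]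
    ring
  hd := by
    rw [(mean hx).tsum_eq]
    have := dr_pos hx
    linarith
  ha := rwb_a hx

private theorem rwb_w (hx : 0 < x) (s : Stp) : (rwbLaw hx).w s = s.wt (AA x) (qq x) := rfl

private theorem rwb_d (hx : 0 < x) : 0 < (rwbLaw hx).d := (rwbLaw hx).d_pos

private theorem rwb_tot (Λ : GR.Law) {f : Stp → ℝ} (hf : Λ.Gr f) (h0 : ∀ s, 0 ≤ f s) {R : ℝ} (h : Λ.E f ≤ R) :
    Tot (fun s => Λ.w s * f s) R :=
  ⟨fun s => mul_nonneg (Λ.w_nonneg s) (h0 s), fun S => (GR.fin_le_E Λ hf h0 S).trans h⟩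

private theorem rwb_nx {p : ℕ} {s : Stp} (h : s.Ok p) : ((s.nx p : ℕ) : ℝ) = p + GR.dP s := by
  cases s with
  | T => simp [Stp.nx, GR.dP]
  | L k a =>
    have h' : k + 3 ≤ p := h
    simp only [Stp.nx, GR.dP]
    rw [Nat.cast_sub (by omega)]
    push_cast
    ring
  | R k a =>
    have h' : k + 3 ≤ p := h
    simp only [Stp.nx, GR.dP]
    rw [Nat.cast_sub (by omega)]
    push_cast
    ring

private theorem rwb_prod (hx : 0 < x) (α β : ℝ) (w : List Stp) : ∀ s : ℕ, WOk s w →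
    (w.map (fun t => (rwbLaw hx).w t * exp (α * GR.dP t + β * GR.dV t))).prod =
      PRW x w * exp (α * ((wend s w : ℝ) - s) + β * wvol w) := by
  induction w with
  | nil =>
    intro s _
    simp [PRW, wwt_nil, wend_nil, wvol_nil]
  | cons t w ih =>
    intro s h
    have h1 : t.Ok s := h.1
    have h2 := ih (t.nx s) h.2
    rw [List.map_cons, List.prod_cons, h2, wend_cons, wvol_cons, rwb_nx h1, rwb_w, GR.dV_eq]
    unfold PRW
    rw [wwt_cons]
    push_cast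
    have h3 : exp (α * GR.dP t + β * (t.vol : ℝ)) * exp (α * ((wend (t.nx s) w : ℝ) - (s + GR.dP t)) + β * wvol w) =
        exp (α * ((wend (t.nx s) w : ℝ) - s) + β * (t.vol + wvol w)) := by
      rw [← Real.exp_add]
      congr 1
      ring
    rw [← h3]
    ring

private theorem rwb_nn (hx : 0 < x) (w : List Stp) : 0 ≤ PRW x w :=
  wwt_nonneg ((by norm_num : (0 : ℝ) ≤ 1 / 2).trans (AA_gt x).le) (qq_nonneg x) w

private theorem rwb_lin (Λ : GR.Law) (a b : ℝ) :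
    (∀ s, |a * GR.dP s + b * GR.dV s| ≤ (2 * |a| + |b|) * (1 + GR.sz s)) ∧
      Λ.E (fun s => a * GR.dP s + b * GR.dV s) = a * Λ.d + b * Λ.E GR.dV := by
  have hP : Λ.Gr GR.dP := GR.gr_lin Λ 2 GR.abs_dP
  have hV : Λ.Gr GR.dV := GR.gr_lin Λ 1 (fun s => by rw [one_mul]; exact GR.abs_dV s)
  refine ⟨fun s => ?_, ?_⟩
  · have h1 := GR.abs_dP s
    have h2 := GR.abs_dV s
    calc |a * GR.dP s + b * GR.dV s| ≤ |a * GR.dP s| + |b * GR.dV s| := abs_add_le _ _
      _ = |a| * |GR.dP s| + |b| * |GR.dV s| := by rw [abs_mul, abs_mul]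
      _ ≤ |a| * (2 * (1 + GR.sz s)) + |b| * (1 + GR.sz s) :=
        add_le_add (mul_le_mul_of_nonneg_left h1 (abs_nonneg a)) (mul_le_mul_of_nonneg_left h2 (abs_nonneg b))
      _ = _ := by ring
  · rw [GR.E_add Λ (GR.gr_mul Λ hP a) (GR.gr_mul Λ hV b), GR.E_mul, GR.E_mul, GR.E_dP]

theorem down (hx : 0 < x) : ∃ C t ε₀ : ℝ, 0 < C ∧ 0 < t ∧ 0 < ε₀ ∧ ∀ ε, 0 ≤ ε → ε ≤ ε₀ →
    ∀ (s e : ℕ) (S : Finset (List Stp)), (∀ w ∈ S, WOk s w ∧ wend s w = e) →
      ∑ w ∈ S, PRW x w * exp (ε * wvol w) ≤ C * exp (t * ((e : ℝ) - s)) := by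
  have hd := rwb_d hx
  obtain ⟨η, hη, hη2⟩ : ∃ η : ℝ, 0 < η ∧ -(rwbLaw hx).d + η * (rwbLaw hx).E GR.dV < 0 := by
    refine ⟨(rwbLaw hx).d / (2 * (|(rwbLaw hx).E GR.dV| + 1)), by positivity, ?_⟩
    have h1 : (rwbLaw hx).E GR.dV ≤ |(rwbLaw hx).E GR.dV| := le_abs_self _
    have h2 : (rwbLaw hx).d / (2 * (|(rwbLaw hx).E GR.dV| + 1)) * (rwbLaw hx).E GR.dV ≤ (rwbLaw hx).d / 2 := by
      have h3 : 0 < 2 * (|(rwbLaw hx).E GR.dV| + 1) := by positivity
      rw [div_mul_eq_mul_div, div_le_div_iff₀ h3 (by norm_num)]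
      nlinarith
    linarith
  obtain ⟨hX, hE⟩ := rwb_lin (rwbLaw hx) (-1) η
  have hE0 : (rwbLaw hx).E (fun s => (-1) * GR.dP s + η * GR.dV s) < 0 := by
    rw [hE]
    linarith
  obtain ⟨θ, hθ, hexp⟩ := GR.expo (rwbLaw hx) _ _ hX hE0
  obtain ⟨hG, hR⟩ := hexp θ hθ le_rfl
  have hT := rwb_tot (rwbLaw hx) hG (fun s => (exp_pos _).le) (le_refl _)
  have hpos : 0 < 1 - (rwbLaw hx).E (fun s => exp (θ * ((-1) * GR.dP s + η * GR.dV s))) := by linarith
  refine ⟨1 / (1 - (rwbLaw hx).E (fun s => exp (θ * ((-1) * GR.dP s + η * GR.dV s)))), θ, θ * η,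
    by positivity, hθ, by positivity, ?_⟩
  intro ε _ hε s e S hS
  have h1 := prod_all hT hR S
  have h2 : ∀ w ∈ S, PRW x w * exp (ε * wvol w) ≤
      (w.map (fun t => (rwbLaw hx).w t * exp (θ * ((-1) * GR.dP t + η * GR.dV t)))).prod *
        exp (θ * ((e : ℝ) - s)) := by
    intro w hw
    have h3 : (fun t => (rwbLaw hx).w t * exp (θ * ((-1) * GR.dP t + η * GR.dV t))) =
        fun t => (rwbLaw hx).w t * exp ((-θ) * GR.dP t + (θ * η) * GR.dV t) := by
      funext t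
      congr 2
      ring
    rw [h3, rwb_prod hx (-θ) (θ * η) w s (hS w hw).1, (hS w hw).2, mul_assoc, ← Real.exp_add]
    refine mul_le_mul_of_nonneg_left ?_ (rwb_nn hx w)
    apply exp_le_exp.mpr
    have h4 : ε * (wvol w : ℝ) ≤ θ * η * wvol w := mul_le_mul_of_nonneg_right hε (Nat.cast_nonneg _)
    linarith
  refine (Finset.sum_le_sum h2).trans ?_
  rw [← Finset.sum_mul]
  exact mul_le_mul_of_nonneg_right h1 (exp_pos _).le

theorem first (hx : 0 < x) : ∃ C ε₀ : ℝ, 0 < C ∧ 0 < ε₀ ∧ ∀ ε, 0 ≤ ε → ε ≤ ε₀ →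
    ∀ (s e : ℕ) (S : Finset (List Stp)), s ≤ e → (∀ w ∈ S, FH s e w) →
      ∑ w ∈ S, PRW x w * exp (ε * wvol w) ≤ exp (C * ε * ((e : ℝ) - s)) := by
  have hd := rwb_d hx
  obtain ⟨c, hc, hc2⟩ : ∃ c : ℝ, 0 < c ∧ -c * (rwbLaw hx).d + 1 * (rwbLaw hx).E GR.dV < 0 := by
    refine ⟨(|(rwbLaw hx).E GR.dV| + 1) / (rwbLaw hx).d, by positivity, ?_⟩
    have h1 : (rwbLaw hx).E GR.dV ≤ |(rwbLaw hx).E GR.dV| := le_abs_self _
    have h2 : (|(rwbLaw hx).E GR.dV| + 1) / (rwbLaw hx).d * (rwbLaw hx).d = |(rwbLaw hx).E GR.dV| + 1 :=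
      div_mul_cancel₀ _ hd.ne'
    linarith
  obtain ⟨hX, hE⟩ := rwb_lin (rwbLaw hx) (-c) 1
  have hE0 : (rwbLaw hx).E (fun s => (-c) * GR.dP s + 1 * GR.dV s) < 0 := by
    rw [hE]
    exact hc2
  obtain ⟨θ, hθ, hexp⟩ := GR.expo (rwbLaw hx) _ _ hX hE0
  refine ⟨c, θ, hc, hθ, ?_⟩
  intro ε hε0 hε s e S hse hS
  have hPF : PF S := fun u hu w hw h => FH_eq (hS u hu) (hS w hw) h
  have hT : Tot (fun t => (rwbLaw hx).w t * exp ((-(c * ε)) * GR.dP t + ε * GR.dV t)) 1 := by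
    rcases hε0.lt_or_eq with h0 | h0
    · obtain ⟨hG, hR⟩ := hexp ε h0 hε
      have h1 := rwb_tot (rwbLaw hx) hG (fun s => (exp_pos _).le) hR.le
      have h3 : (fun t => (rwbLaw hx).w t * exp (ε * ((-c) * GR.dP t + 1 * GR.dV t))) =
          fun t => (rwbLaw hx).w t * exp ((-(c * ε)) * GR.dP t + ε * GR.dV t) := by
        funext t
        congr 2
        ring
      rw [h3] at h1
      exact h1
    · rw [← h0]
      have h1 := tot_pr hx
      have h3 : (fun t => (rwbLaw hx).w t * exp ((-(c * 0)) * GR.dP t + 0 * GR.dV t)) =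
          fun t : Stp => t.wt (AA x) (qq x) := by
        funext t
        simp [rwb_w]
      rw [h3]
      exact h1
  have h1 := prod_pf hT S hPF
  have h2 : ∀ w ∈ S, PRW x w * exp (ε * wvol w) =
      (w.map (fun t => (rwbLaw hx).w t * exp ((-(c * ε)) * GR.dP t + ε * GR.dV t))).prod *
        exp (c * ε * ((e : ℝ) - s)) := by
    intro w hw
    rw [rwb_prod hx (-(c * ε)) ε w s (hS w hw).1, (hS w hw).2.1, mul_assoc, ← Real.exp_add]
    congr 2
    ring
  rw [Finset.sum_congr rfl h2, ← Finset.sum_mul]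
  calc _ ≤ 1 * exp (c * ε * ((e : ℝ) - s)) := mul_le_mul_of_nonneg_right h1 (exp_pos _).le
    _ = _ := one_mul _

private theorem rwb_cut {a : ℕ} (w : List Stp) : ∀ s : ℕ, WOk s w → wend s w = a →
    FH s a (pfx a s w) ∧ WOk a (sfx a s w) ∧ wend a (sfx a s w) = a := by
  induction w with
  | nil =>
    intro s _ h
    have h1 : s = a := h
    have e1 : pfx a s [] = [] := rfl
    have e2 : sfx a s [] = [] := rfl
    rw [e1, e2]
    refine ⟨⟨trivial, h, ?_⟩, trivial, rfl⟩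
    intro u hu hn
    exact absurd (List.prefix_nil.1 hu) hn
  | cons t w ih =>
    intro s h h1
    have e1 : pfx a s (t :: w) = if s = a then [] else t :: pfx a (t.nx s) w := rfl
    have e2 : sfx a s (t :: w) = if s = a then t :: w else sfx a (t.nx s) w := rfl
    by_cases h2 : s = a
    · rw [e1, e2, if_pos h2, if_pos h2]
      subst h2
      refine ⟨⟨trivial, rfl, ?_⟩, h, h1⟩
      intro u hu hn
      exact absurd (List.prefix_nil.1 hu) hn
    · rw [e1, e2, if_neg h2, if_neg h2]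
      obtain ⟨h3, h4, h5⟩ := ih (t.nx s) h.2 h1
      refine ⟨⟨⟨h.1, h3.1⟩, h3.2.1, ?_⟩, h4, h5⟩
      intro u hu hn
      cases u with
      | nil => exact h2
      | cons t' u =>
        obtain ⟨h6, h7⟩ := List.cons_prefix_cons.1 hu
        rw [h6] at hn ⊢
        exact h3.2.2 u h7 (fun h8 => hn (by rw [h8]))

theorem visits (hx : 0 < x) : ∃ C c ε₀ : ℝ, 0 < C ∧ 0 < c ∧ 0 < ε₀ ∧ ∀ ε, 0 ≤ ε → ε ≤ ε₀ →
    ∀ (s e : ℕ) (S : Finset (List Stp)), (∀ w ∈ S, WOk s w ∧ wend s w = e) →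
      ∑ w ∈ S, PRW x w * exp (ε * wvol w) ≤
        C * exp (C * ε * ((e - s : ℕ) : ℝ) - c * ((s - e : ℕ) : ℝ)) := by
  obtain ⟨C₁, t, ε₁, hC₁, ht, hε₁, hdown⟩ := down hx
  obtain ⟨C₂, ε₂, hC₂, hε₂, hfirst⟩ := first hx
  refine ⟨max C₁ C₂, t, min ε₁ ε₂, lt_of_lt_of_le hC₁ (le_max_left _ _), ht, lt_min hε₁ hε₂, ?_⟩
  intro ε hε0 hε s e S hS
  have hεa := hε.trans (min_le_left _ _)
  have hεb := hε.trans (min_le_right _ _)
  rcases le_total e s with hse | hse
  · have h1 := hdown ε hε0 hεa s e S hS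
    refine h1.trans ?_
    have h2 : e - s = 0 := by omega
    rw [h2, Nat.cast_sub hse, Nat.cast_zero, mul_zero, zero_sub]
    refine mul_le_mul (le_max_left _ _) (le_of_eq ?_) (exp_pos _).le (hC₁.le.trans (le_max_left _ _))
    congr 1
    ring
  · have h2 : s - e = 0 := by omega
    rw [h2, Nat.cast_sub hse, Nat.cast_zero, mul_zero, sub_zero]
    set P := S.image (fun w => pfx e s w) with hP
    set Q := S.image (fun w => sfx e s w) with hQ
    have hinj : Set.InjOn (fun w : List Stp => (pfx e s w, sfx e s w)) S := by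
      intro u _ v _ huv
      have h3 : pfx e s u = pfx e s v := congrArg Prod.fst huv
      have h4 : sfx e s u = sfx e s v := congrArg Prod.snd huv
      rw [← pfx_sfx e s u, ← pfx_sfx e s v, h3, h4]
    have hf : ∀ w : List Stp, PRW x w * exp (ε * wvol w) =
        (PRW x (pfx e s w) * exp (ε * wvol (pfx e s w))) * (PRW x (sfx e s w) * exp (ε * wvol (sfx e s w))) := by
      intro w
      conv_lhs => rw [← pfx_sfx e s w]
      unfold PRW
      rw [wwt_append, wvol_append]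
      push_cast
      rw [mul_add, Real.exp_add]
      ring
    have hsub : S.image (fun w : List Stp => (pfx e s w, sfx e s w)) ⊆ P ×ˢ Q := by
      intro z hz
      obtain ⟨w, hw, rfl⟩ := Finset.mem_image.mp hz
      exact Finset.mem_product.mpr ⟨Finset.mem_image_of_mem _ hw, Finset.mem_image_of_mem _ hw⟩
    have h3 : ∑ w ∈ S, PRW x w * exp (ε * wvol w) ≤
        (∑ u ∈ P, PRW x u * exp (ε * wvol u)) * (∑ v ∈ Q, PRW x v * exp (ε * wvol v)) := by
      rw [Finset.sum_mul_sum, ← Finset.sum_product', Finset.sum_congr rfl (fun w _ => hf w),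
        ← Finset.sum_image (f := fun z : List Stp × List Stp =>
          (PRW x z.1 * exp (ε * wvol z.1)) * (PRW x z.2 * exp (ε * wvol z.2))) hinj]
      refine Finset.sum_le_sum_of_subset_of_nonneg hsub fun z _ _ => ?_
      have e1 := rwb_nn hx z.1
      have e2 := rwb_nn hx z.2
      positivity
    have hP1 : ∀ u ∈ P, FH s e u := by
      intro u hu
      obtain ⟨w, hw, rfl⟩ := Finset.mem_image.mp hu
      exact (rwb_cut w s (hS w hw).1 (hS w hw).2).1
    have hQ1 : ∀ v ∈ Q, WOk e v ∧ wend e v = e := by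
      intro v hv
      obtain ⟨w, hw, rfl⟩ := Finset.mem_image.mp hv
      exact (rwb_cut w s (hS w hw).1 (hS w hw).2).2
    have h4 := hfirst ε hε0 hεb s e P hse hP1
    have h5 := hdown ε hε0 hεa e e Q hQ1
    rw [sub_self, mul_zero, Real.exp_zero, mul_one] at h5
    have h6 : 0 ≤ ∑ v ∈ Q, PRW x v * exp (ε * wvol v) := by
      refine Finset.sum_nonneg fun v _ => ?_
      have e1 := rwb_nn hx v
      positivity
    refine h3.trans ((mul_le_mul h4 h5 h6 (exp_pos _).le).trans ?_)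
    rw [mul_comm]
    refine mul_le_mul (le_max_left _ _) ?_ (exp_pos _).le (hC₁.le.trans (le_max_left _ _))
    apply exp_le_exp.mpr
    have h7 : (0 : ℝ) ≤ (e : ℝ) - s := by
      have : (s : ℝ) ≤ e := by exact_mod_cast hse
      linarith
    exact mul_le_mul_of_nonneg_right (mul_le_mul_of_nonneg_right (le_max_right _ _) hε0) h7

end SYS.Num
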