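import Pool.Agent.SYS.PL.LawB

/-!
# SYS-PL-Law: the law of the steps (collects `LawA`, `LawB`)
-/
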