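import Pool.Agent.SYS.PL.RwB

/-!
# SYS-PL-RwC: hitting a higher level

Words with letters in a finite set of steps of mass near `1` hit the level `e` with probability at least
`1 - exp (-θ s) - ..`; the volume is controlled by `first`.
-/

namespace SYS.Num

open Real Classical

variable {x : ℝ}

/-- The change of the perimeter. -/
private noncomputable def rcd : Stp → ℝ
  | .T => 1
  | .L k _ => -((k : ℝ) + 2)
  | .R k _ => -((k : ℝ) + 2)

private theorem rcd_nx {p : ℕ} {s : Stp} (h : s.Ok p) : ((s.nx p : ℕ) : ℝ) = p + rcd s := by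
  cases s with
  | T =>
    show ((p + 1 : ℕ) : ℝ) = p + 1
    push_cast
    ring
  | L k a =>
    have h' : k + 3 ≤ p := h
    show ((p - (k + 2) : ℕ) : ℝ) = p + -((k : ℝ) + 2)
    rw [Nat.cast_sub (by omega)]
    push_cast
    ring
  | R k a =>
    have h' : k + 3 ≤ p := h
    show ((p - (k + 2) : ℕ) : ℝ) = p + -((k : ℝ) + 2)
    rw [Nat.cast_sub (by omega)]
    push_cast
    ring

private theorem rcd_not {p : ℕ} {s : Stp} (h : ¬ s.Ok p) : (p : ℝ) + rcd s ≤ 0 := by
  cases s with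
  | T => exact (h trivial).elim
  | L k a =>
    have h' : ¬ k + 3 ≤ p := h
    have h2 : (p : ℝ) ≤ k + 2 := by
      have : p ≤ k + 2 := by omega
      exact_mod_cast this
    show (p : ℝ) + -((k : ℝ) + 2) ≤ 0
    linarith
  | R k a =>
    have h' : ¬ k + 3 ≤ p := h
    have h2 : (p : ℝ) ≤ k + 2 := by
      have : p ≤ k + 2 := by omega
      exact_mod_cast this
    show (p : ℝ) + -((k : ℝ) + 2) ≤ 0
    linarith

private theorem nx_le {p : ℕ} (s : Stp) : s.nx p ≤ p + 1 := by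
  cases s with
  | T => exact le_rfl
  | L k a => show p - (k + 2) ≤ p + 1; omega
  | R k a => show p - (k + 2) ≤ p + 1; omega

/-- First-hit words of length at most `n` with letters in `J`. -/
private noncomputable def ws (J : Finset Stp) (e : ℕ) : ℕ → ℕ → Finset (List Stp)
  | 0, p => if p = e then {[]} else ∅
  | n + 1, p => if p = e then {[]} else
      (J.filter fun s => s.Ok p).biUnion fun s => (ws J e n (s.nx p)).image fun w => s :: w

private theorem fh_cons' {s p : ℕ} {t : Stp} {w : List Stp} (h1 : s ≠ p) (h2 : t.Ok s)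
    (h3 : FH (t.nx s) p w) : FH s p (t :: w) := by
  refine ⟨⟨h2, h3.1⟩, h3.2.1, ?_⟩
  intro u hu hn
  cases u with
  | nil => exact h1
  | cons t' u =>
    obtain ⟨h6, h7⟩ := List.cons_prefix_cons.1 hu
    rw [h6] at hn ⊢
    exact h3.2.2 u h7 (fun h => hn (by rw [h]))

private theorem fh_nil' (e : ℕ) : FH e e [] := by
  refine ⟨trivial, rfl, ?_⟩
  intro u hu hn
  exact (hn (List.prefix_nil.1 hu)).elim

private theorem ws_fh (J : Finset Stp) (e n : ℕ) : ∀ p, ∀ w ∈ ws J e n p, FH p e w := by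
  induction n with
  | zero =>
    intro p w hw
    rw [ws] at hw
    split_ifs at hw with h
    · rw [Finset.mem_singleton] at hw
      rw [hw, h]
      exact fh_nil' e
    · exact (Finset.notMem_empty _ hw).elim
  | succ n ih =>
    intro p w hw
    rw [ws] at hw
    split_ifs at hw with h
    · rw [Finset.mem_singleton] at hw
      rw [hw, h]
      exact fh_nil' e
    · rw [Finset.mem_biUnion] at hw
      obtain ⟨s, hs, hw⟩ := hw
      obtain ⟨u, hu, rfl⟩ := Finset.mem_image.1 hw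
      exact fh_cons' h (Finset.mem_filter.1 hs).2 (ih _ u hu)

private theorem ws_sum (x : ℝ) (J : Finset Stp) {e n p : ℕ} (hp : p ≠ e) :
    ∑ w ∈ ws J e (n + 1) p, PRW x w =
      ∑ s ∈ J.filter (fun s => s.Ok p), s.wt (AA x) (qq x) * ∑ w ∈ ws J e n (s.nx p), PRW x w := by
  rw [ws, if_neg hp, Finset.sum_biUnion]
  · refine Finset.sum_congr rfl fun s hs => ?_
    rw [Finset.sum_image, Finset.mul_sum]
    · refine Finset.sum_congr rfl fun w hw => ?_
      rw [PRW, wwt_cons]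
      rfl
    · intro a _ b _ h
      exact (List.cons.inj h).2
  · intro s hs t ht hst
    rw [Function.onFun, Finset.disjoint_left]
    intro w hw hw'
    obtain ⟨a, _, rfl⟩ := Finset.mem_image.1 hw
    obtain ⟨b, _, hb⟩ := Finset.mem_image.1 hw'
    exact hst (List.cons.inj hb).1.symm

private theorem ws_end (x : ℝ) (J : Finset Stp) (e n : ℕ) : ∑ w ∈ ws J e n e, PRW x w = 1 := by
  have h : ws J e n e = {[]} := by
    cases n with
    | zero => rw [ws, if_pos rfl]
    | succ n => rw [ws, if_pos rfl]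
  rw [h, Finset.sum_singleton, PRW, wwt_nil]

private theorem AA_nonneg (x : ℝ) : 0 ≤ AA x := by
  have h1 : 0 ≤ rr x := Real.sqrt_nonneg _
  have h2 : 0 < cosh x := cosh_pos x
  exact div_nonneg (by linarith) (by linarith)

private theorem wt_nn (x : ℝ) (s : Stp) : 0 ≤ s.wt (AA x) (qq x) :=
  s.wt_nonneg (AA_nonneg x) (qq_nonneg x)

private theorem ws_bound {θ ρ η : ℝ} (x : ℝ) (hθ : 0 < θ) (hρ : 0 ≤ ρ) (hρ1 : ρ ≤ 1) (hη : 0 ≤ η)
    (J : Finset Stp) (h1 : 1 - η ≤ ∑ s ∈ J, s.wt (AA x) (qq x)) (h1' : ∑ s ∈ J, s.wt (AA x) (qq x) ≤ 1)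
    (h2 : ∑ s ∈ J, s.wt (AA x) (qq x) * exp (-θ * rcd s) ≤ ρ) (e n : ℕ) :
    ∀ p : ℕ, p ≤ e → 1 - exp (-θ * p) - n * η - ρ ^ n * exp (θ * (e - p)) ≤ ∑ w ∈ ws J e n p, PRW x w := by
  induction n with
  | zero =>
    intro p hp
    have h3 : 1 ≤ exp (θ * ((e : ℝ) - p)) := by
      have : (p : ℝ) ≤ e := by exact_mod_cast hp
      exact Real.one_le_exp (mul_nonneg hθ.le (by linarith))
    have h4 := exp_pos (-θ * (p : ℝ))
    have h5 : 0 ≤ ∑ w ∈ ws J e 0 p, PRW x w :=
      Finset.sum_nonneg fun w _ => wwt_nonneg (AA_nonneg x) (qq_nonneg x) w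
    rw [pow_zero]
    push_cast
    linarith
  | succ n ih =>
    intro p hp
    rcases hp.eq_or_lt with rfl | hlt
    · rw [ws_end]
      have h4 := exp_pos (-θ * (p : ℝ))
      have h5 : 0 ≤ ρ ^ (n + 1) * exp (θ * ((p : ℝ) - p)) := by positivity
      have h6 : 0 ≤ ((n + 1 : ℕ) : ℝ) * η := by positivity
      linarith
    · rw [ws_sum x J hlt.ne]
      set g : ℝ → ℝ := fun z => 1 - exp (-θ * z) - n * η - ρ ^ n * exp (θ * (e - z)) with hg
      have s1 : ∑ s ∈ J.filter (fun s => s.Ok p), s.wt (AA x) (qq x) * g (p + rcd s) ≤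
          ∑ s ∈ J.filter (fun s => s.Ok p), s.wt (AA x) (qq x) * ∑ w ∈ ws J e n (s.nx p), PRW x w := by
        refine Finset.sum_le_sum fun s hs => mul_le_mul_of_nonneg_left ?_ (wt_nn x s)
        have h3 := ih (s.nx p) (by have := nx_le (p := p) s; omega)
        rw [rcd_nx (Finset.mem_filter.1 hs).2] at h3
        exact h3
      have s2 : ∑ s ∈ J, s.wt (AA x) (qq x) * g (p + rcd s) ≤
          ∑ s ∈ J.filter (fun s => s.Ok p), s.wt (AA x) (qq x) * g (p + rcd s) := by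
        rw [Finset.sum_filter]
        refine Finset.sum_le_sum fun s hs => ?_
        split_ifs with hk
        · exact le_rfl
        · have h3 := rcd_not hk
          have h4 : g (p + rcd s) ≤ 0 := by
            have h5 : 1 ≤ exp (-θ * (p + rcd s)) := Real.one_le_exp (by nlinarith)
            have h6 : 0 ≤ (n : ℝ) * η := by positivity
            have h7 : 0 ≤ ρ ^ n * exp (θ * (e - (p + rcd s))) := by positivity
            rw [hg]
            show 1 - exp (-θ * (p + rcd s)) - n * η - ρ ^ n * exp (θ * (e - (p + rcd s))) ≤ 0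
            linarith
          exact mul_nonpos_of_nonneg_of_nonpos (wt_nn x s) h4
      have s3 : ∑ s ∈ J, s.wt (AA x) (qq x) * g (p + rcd s) =
          (∑ s ∈ J, s.wt (AA x) (qq x)) * (1 - n * η) -
            (exp (-θ * p) + ρ ^ n * exp (θ * (e - p))) * ∑ s ∈ J, s.wt (AA x) (qq x) * exp (-θ * rcd s) := by
        rw [Finset.sum_mul, Finset.mul_sum, ← Finset.sum_sub_distrib]
        refine Finset.sum_congr rfl fun s _ => ?_
        have h3 : exp (-θ * (p + rcd s)) = exp (-θ * p) * exp (-θ * rcd s) := by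
          rw [← exp_add]
          congr 1
          ring
        have h4 : exp (θ * (e - (p + rcd s))) = exp (θ * (e - p)) * exp (-θ * rcd s) := by
          rw [← exp_add]
          congr 1
          ring
        rw [hg]
        show s.wt (AA x) (qq x) * (1 - exp (-θ * (p + rcd s)) - n * η - ρ ^ n * exp (θ * (e - (p + rcd s)))) = _
        rw [h3, h4]
        ring
      have h3 := exp_pos (-θ * (p : ℝ))
      have h4 : 0 ≤ ρ ^ n * exp (θ * ((e : ℝ) - p)) := by positivity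
      have h5 : (exp (-θ * p) + ρ ^ n * exp (θ * (e - p))) * ∑ s ∈ J, s.wt (AA x) (qq x) * exp (-θ * rcd s) ≤
          (exp (-θ * p) + ρ ^ n * exp (θ * (e - p))) * ρ := mul_le_mul_of_nonneg_left h2 (by linarith)
      have h6 : exp (-θ * (p : ℝ)) * ρ ≤ exp (-θ * (p : ℝ)) * 1 := mul_le_mul_of_nonneg_left hρ1 h3.le
      have h7 : 0 ≤ (n : ℝ) * η := by positivity
      have h8 : (∑ s ∈ J, s.wt (AA x) (qq x)) * (n * η) ≤ 1 * (n * η) := mul_le_mul_of_nonneg_right h1' h7
      rw [pow_succ]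
      push_cast
      nlinarith

private theorem sum_J (f : Stp → ℝ) (I : Finset (ℕ × ℕ)) :
    ∑ s ∈ ({Stp.T} ∪ (I.image fun t => Stp.L t.1 t.2)) ∪ I.image fun t => Stp.R t.1 t.2, f s =
      f .T + ∑ t ∈ I, f (.L t.1 t.2) + ∑ t ∈ I, f (.R t.1 t.2) := by
  rw [Finset.sum_union, Finset.sum_union, Finset.sum_singleton, Finset.sum_image, Finset.sum_image]
  · intro a _ b _ h
    injection h with h1 h2
    exact Prod.ext h1 h2
  · intro a _ b _ h
    injection h with h1 h2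
    exact Prod.ext h1 h2
  · rw [Finset.disjoint_left]
    intro s h1 h2
    obtain ⟨b, _, rfl⟩ := Finset.mem_image.1 h2
    exact Stp.noConfusion (Finset.mem_singleton.1 h1)
  · rw [Finset.disjoint_left]
    intro s h1 h2
    obtain ⟨b, _, rfl⟩ := Finset.mem_image.1 h2
    rcases Finset.mem_union.1 h1 with h3 | h3
    · exact Stp.noConfusion (Finset.mem_singleton.1 h3)
    · obtain ⟨c, _, hc⟩ := Finset.mem_image.1 h3
      exact Stp.noConfusion hc

private theorem hit0 (hx : 0 < x) : ∃ c : ℝ, 0 < c ∧ ∀ s e : ℕ, 1 ≤ s → s ≤ e →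
    ∃ S : Finset (List Stp), (∀ w ∈ S, FH s e w) ∧ c ≤ ∑ w ∈ S, PRW x w := by
  obtain ⟨θ, hθ, ht⟩ := tilt hx
  obtain ⟨e₀, he₀, ρ, hρ1, hρ⟩ := ht θ hθ le_rfl
  obtain ⟨hsum, hle⟩ := hρ 0 le_rfl he₀.le
  have hm := mass hx
  have hρ0 : 0 ≤ ρ := by
    refine le_trans ?_ hle
    have h1 : 0 ≤ AA x * exp (-θ + 0) := mul_nonneg (AA_nonneg x) (exp_pos _).le
    have h2 : 0 ≤ ∑' s : ℕ × ℕ, qq x s.1 s.2 * exp (θ * (s.1 + 2) + 0 * s.2) :=
      tsum_nonneg fun s => mul_nonneg (qq_nonneg x _ _) (exp_pos _).le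
    linarith
  set c := (1 - exp (-θ)) / 3 with hc
  have hc0 : 0 < c := by
    have : exp (-θ) < 1 := by
      rw [Real.exp_lt_one_iff]
      linarith
    rw [hc]
    linarith
  refine ⟨c, hc0, fun s e hs hse => ?_⟩
  obtain ⟨n, hn⟩ : ∃ n : ℕ, ρ ^ n * exp (θ * ((e : ℝ) - s)) ≤ c := by
    have h1 : Filter.Tendsto (fun n : ℕ => ρ ^ n * exp (θ * ((e : ℝ) - s))) Filter.atTop (nhds 0) := by
      have := (tendsto_pow_atTop_nhds_zero_of_lt_one hρ0 hρ1).mul_const (exp (θ * ((e : ℝ) - s)))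
      rwa [zero_mul] at this
    exact ((h1.eventually_lt_const hc0).exists).imp fun n h => h.le
  obtain ⟨η, hη0, hη⟩ : ∃ η : ℝ, 0 < η ∧ n * η ≤ c := by
    refine ⟨c / (n + 1), by positivity, ?_⟩
    rw [mul_div_assoc', div_le_iff₀ (by positivity)]
    nlinarith
  obtain ⟨I, hI⟩ : ∃ I : Finset (ℕ × ℕ), (1 - AA x) / 2 - η / 2 < ∑ t ∈ I, qq x t.1 t.2 :=
    (hm.eventually_const_lt (by linarith)).exists
  have hI1 : ∑ t ∈ I, qq x t.1 t.2 ≤ (1 - AA x) / 2 :=
    sum_le_hasSum I (fun t _ => qq_nonneg x _ _) hm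
  set J := ({Stp.T} ∪ (I.image fun t => Stp.L t.1 t.2)) ∪ I.image fun t => Stp.R t.1 t.2 with hJ
  have j1 : ∑ s ∈ J, s.wt (AA x) (qq x) = AA x + 2 * ∑ t ∈ I, qq x t.1 t.2 := by
    rw [hJ, sum_J]
    show AA x + ∑ t ∈ I, qq x t.1 t.2 + ∑ t ∈ I, qq x t.1 t.2 = _
    ring
  have j2 : ∑ s ∈ J, s.wt (AA x) (qq x) * exp (-θ * rcd s) =
      AA x * exp (-θ + 0) + 2 * ∑ t ∈ I, qq x t.1 t.2 * exp (θ * (t.1 + 2) + 0 * t.2) := by
    rw [hJ, sum_J]
    have h1 : ∀ t : ℕ × ℕ, exp (-θ * -((t.1 : ℝ) + 2)) = exp (θ * (t.1 + 2) + 0 * t.2) := by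
      intro t
      congr 1
      ring
    show AA x * exp (-θ * 1) + ∑ t ∈ I, qq x t.1 t.2 * exp (-θ * -((t.1 : ℝ) + 2)) +
      ∑ t ∈ I, qq x t.1 t.2 * exp (-θ * -((t.1 : ℝ) + 2)) = _
    rw [mul_one, add_zero]
    simp only [h1]
    ring
  have j3 : ∑ t ∈ I, qq x t.1 t.2 * exp (θ * (t.1 + 2) + 0 * t.2) ≤
      ∑' t : ℕ × ℕ, qq x t.1 t.2 * exp (θ * (t.1 + 2) + 0 * t.2) :=
    hsum.sum_le_tsum I fun t _ => mul_nonneg (qq_nonneg x _ _) (exp_pos _).le
  refine ⟨ws J e n s, ws_fh J e n s, ?_⟩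
  have hb := ws_bound x hθ hρ0 hρ1.le hη0.le J (by rw [j1]; linarith) (by rw [j1]; linarith)
    (by rw [j2]; linarith) e n s hse
  have h4 : exp (-θ * s) ≤ exp (-θ) := by
    rw [Real.exp_le_exp]
    have : (1 : ℝ) ≤ s := by exact_mod_cast hs
    nlinarith
  linarith

theorem hitting (hx : 0 < x) : ∃ c₀ : ℝ, ∃ C₀ : ℕ, 0 < c₀ ∧ ∀ s e : ℕ, 1 ≤ s → s ≤ e →
    ∃ S : Finset (List Stp), PF S ∧ (∀ w ∈ S, FH s e w ∧ wvol w ≤ C₀ * (e - s + 1)) ∧
      c₀ ≤ ∑ w ∈ S, PRW x w := by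
  obtain ⟨c, hc, hhit⟩ := hit0 hx
  obtain ⟨C, ε, hC, hε, hfirst⟩ := first hx
  obtain ⟨C₀, hC₀⟩ := exists_nat_ge (C + 2 / (c * ε))
  refine ⟨c / 2, C₀, by linarith, fun s e hs hse => ?_⟩
  obtain ⟨S, hS, hc2⟩ := hhit s e hs hse
  refine ⟨S.filter fun w => wvol w ≤ C₀ * (e - s + 1), ?_, ?_, ?_⟩
  · intro u hu w hw h
    exact FH_eq (hS u (Finset.mem_filter.1 hu).1) (hS w (Finset.mem_filter.1 hw).1) h
  · intro w hw
    exact ⟨hS w (Finset.mem_filter.1 hw).1, (Finset.mem_filter.1 hw).2⟩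
  · have h1 := hfirst ε hε.le le_rfl s e (S.filter fun w => ¬ wvol w ≤ C₀ * (e - s + 1)) hse
      (fun w hw => hS w (Finset.mem_filter.1 hw).1)
    have h2 : (∑ w ∈ S.filter fun w => ¬ wvol w ≤ C₀ * (e - s + 1), PRW x w) *
        exp (ε * (C₀ * ((e : ℝ) - s + 1))) ≤
        ∑ w ∈ S.filter fun w => ¬ wvol w ≤ C₀ * (e - s + 1), PRW x w * exp (ε * wvol w) := by
      rw [Finset.sum_mul]
      refine Finset.sum_le_sum fun w hw => ?_
      have h3 := (Finset.mem_filter.1 hw).2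
      have h4 : (C₀ : ℝ) * ((e : ℝ) - s + 1) ≤ wvol w := by
        have h5 : C₀ * (e - s + 1) ≤ wvol w := by omega
        have h6 : ((C₀ * (e - s + 1) : ℕ) : ℝ) ≤ wvol w := by exact_mod_cast h5
        rw [Nat.cast_mul, Nat.cast_add, Nat.cast_sub hse, Nat.cast_one] at h6
        exact h6
      refine mul_le_mul_of_nonneg_left ?_ (wwt_nonneg (AA_nonneg x) (qq_nonneg x) w)
      rw [Real.exp_le_exp]
      exact mul_le_mul_of_nonneg_left h4 hε.le
    have h3 : (∑ w ∈ S.filter fun w => ¬ wvol w ≤ C₀ * (e - s + 1), PRW x w) ≤ c / 2 := by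
      have hd : (0 : ℝ) ≤ (e : ℝ) - s := by
        have : (s : ℝ) ≤ e := by exact_mod_cast hse
        linarith
      have h4 : exp (C * ε * ((e : ℝ) - s)) * (2 / c) ≤ exp (ε * (C₀ * ((e : ℝ) - s + 1))) := by
        have h5 : 2 / c ≤ exp (2 / c) := by
          have := Real.add_one_le_exp (2 / c)
          linarith
        calc exp (C * ε * ((e : ℝ) - s)) * (2 / c) ≤ exp (C * ε * ((e : ℝ) - s)) * exp (2 / c) :=
              mul_le_mul_of_nonneg_left h5 (exp_pos _).le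
          _ = exp (C * ε * ((e : ℝ) - s) + 2 / c) := (exp_add _ _).symm
          _ ≤ exp (ε * (C₀ * ((e : ℝ) - s + 1))) := by
              rw [Real.exp_le_exp]
              have h6 : (C + 2 / (c * ε)) * ((e : ℝ) - s + 1) ≤ C₀ * ((e : ℝ) - s + 1) :=
                mul_le_mul_of_nonneg_right hC₀ (by linarith)
              have h7 : ε * (2 / (c * ε)) = 2 / c := by
                field_simp
              have h8 : 0 < 2 / c := by positivity
              have h9 : ε * ((C + 2 / (c * ε)) * ((e : ℝ) - s + 1)) ≤ ε * (C₀ * ((e : ℝ) - s + 1)) :=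
                mul_le_mul_of_nonneg_left h6 hε.le
              have h10 : ε * ((C + 2 / (c * ε)) * ((e : ℝ) - s + 1)) =
                  C * ε * ((e : ℝ) - s) + C * ε + 2 / c * ((e : ℝ) - s) + 2 / c := by
                rw [← h7]
                ring
              have h11 : 0 ≤ 2 / c * ((e : ℝ) - s) := mul_nonneg h8.le hd
              have h12 : 0 ≤ C * ε := by positivity
              linarith
      by_contra hcon
      rw [not_le] at hcon
      have h6 : c / 2 * exp (ε * (C₀ * ((e : ℝ) - s + 1))) <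
          (∑ w ∈ S.filter fun w => ¬ wvol w ≤ C₀ * (e - s + 1), PRW x w) *
            exp (ε * (C₀ * ((e : ℝ) - s + 1))) := mul_lt_mul_of_pos_right hcon (exp_pos _)
      have h7 : c / 2 * (exp (C * ε * ((e : ℝ) - s)) * (2 / c)) = exp (C * ε * ((e : ℝ) - s)) := by
        field_simp
      have h8 : c / 2 * (exp (C * ε * ((e : ℝ) - s)) * (2 / c)) ≤
          c / 2 * exp (ε * (C₀ * ((e : ℝ) - s + 1))) := mul_le_mul_of_nonneg_left h4 (by linarith)
      linarith
    have h4 := Finset.sum_filter_add_sum_filter_not S (fun w => wvol w ≤ C₀ * (e - s + 1)) (PRW x)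
    linarith

end SYS.Num
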