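import Pool.Agent.SYS.PL.Law

/-!
# SYS-PL-RwA: weights of words

The relation between the probability and the number of discs of a word (`PRW_eq`, induction on the word), and the total
weight of finite sets of words under a multiplicative weight (split off the first letter).
-/

namespace SYS.Num

open Real Classical

variable {x : ℝ}

private theorem sqrt_even {y : ℝ} (hy : 0 < y) {n : ℕ} (h : Even n) : √y ^ (n + 2) = y ^ (1 + n / 2) := by
  obtain ⟨m, rfl⟩ := h
  have h1 : m + m + 2 = 2 * (1 + (m + m) / 2) := by omega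
  rw [h1, pow_mul, Real.sq_sqrt hy.le]

private theorem qq_key (x : ℝ) (k a n : ℕ) :
    qq x k a * AA x ^ (n + (k + 2)) * √(yy x) ^ n =
      W k a * AA x ^ n * √(yy x) ^ (a + (n + (k + 2))) := by
  have hA : AA x ≠ 0 := by
    have := AA_gt x
    linarith
  by_cases h : Even (a + k)
  · have h1 := sqrt_even (yy_pos x) h
    have h2 : a + (n + (k + 2)) = n + (a + k + 2) := by ring
    unfold qq
    rw [h2, pow_add (√(yy x)), h1]
    field_simp
    ring
  · unfold qq
    rw [W_odd h]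
    ring

private theorem step_key (x : ℝ) (p : ℕ) (s : Stp) (h : s.Ok p) :
    s.wt (AA x) (qq x) * AA x ^ p * √(yy x) ^ s.nx p =
      s.wt 1 W * AA x ^ s.nx p * √(yy x) ^ (s.vol + p) := by
  cases s with
  | T =>
    show AA x * AA x ^ p * √(yy x) ^ (p + 1) = 1 * AA x ^ (p + 1) * √(yy x) ^ (1 + p)
    rw [Nat.add_comm 1 p]
    ring
  | L k a =>
    have h' : k + 3 ≤ p := h
    obtain ⟨n, hn⟩ : ∃ n, p = n + (k + 2) := ⟨p - (k + 2), by omega⟩
    have hnx : (Stp.L k a).nx p = n := by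
      show p - (k + 2) = n
      omega
    rw [hnx, hn]
    exact qq_key x k a n
  | R k a =>
    have h' : k + 3 ≤ p := h
    obtain ⟨n, hn⟩ : ∃ n, p = n + (k + 2) := ⟨p - (k + 2), by omega⟩
    have hnx : (Stp.R k a).nx p = n := by
      show p - (k + 2) = n
      omega
    rw [hnx, hn]
    exact qq_key x k a n

theorem PRW_eq (x : ℝ) (p : ℕ) (w : List Stp) (h : WOk p w) :
    PRW x w * AA x ^ p * √(yy x) ^ wend p w = wwt 1 W w * AA x ^ wend p w * √(yy x) ^ (wvol w + p) := by
  have hA : 0 < AA x := by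
    have := AA_gt x
    linarith
  have hy : 0 < √(yy x) := Real.sqrt_pos.2 (yy_pos x)
  induction w generalizing p with
  | nil =>
    unfold PRW
    rw [wwt_nil, wwt_nil, wend_nil, wvol_nil, Nat.zero_add]
  | cons s w ih =>
    obtain ⟨h1, h2⟩ := (WOk_cons p s w).1 h
    have h3 := ih (s.nx p) h2
    have h4 := step_key x p s h1
    have h5 : PRW x (s :: w) = s.wt (AA x) (qq x) * PRW x w := wwt_cons _ _ _ _
    rw [h5, wwt_cons, wend_cons, wvol_cons]
    have h6 : AA x ^ s.nx p * √(yy x) ^ s.nx p ≠ 0 := by positivity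
    apply mul_right_cancel₀ h6
    calc s.wt (AA x) (qq x) * PRW x w * AA x ^ p * √(yy x) ^ wend (s.nx p) w *
          (AA x ^ s.nx p * √(yy x) ^ s.nx p)
        = (s.wt (AA x) (qq x) * AA x ^ p * √(yy x) ^ s.nx p) *
          (PRW x w * AA x ^ s.nx p * √(yy x) ^ wend (s.nx p) w) := by ring
      _ = (s.wt 1 W * AA x ^ s.nx p * √(yy x) ^ (s.vol + p)) *
          (wwt 1 W w * AA x ^ wend (s.nx p) w * √(yy x) ^ (wvol w + s.nx p)) := by rw [h3, h4]
      _ = s.wt 1 W * wwt 1 W w * AA x ^ wend (s.nx p) w * √(yy x) ^ (s.vol + wvol w + p) *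
          (AA x ^ s.nx p * √(yy x) ^ s.nx p) := by
          rw [pow_add (√(yy x)) s.vol p, pow_add (√(yy x)) (wvol w), pow_add (√(yy x)) (s.vol + wvol w),
            pow_add (√(yy x)) s.vol (wvol w)]
          ring

/-- The total of a function of the steps is at most `R`. -/
def Tot (f : Stp → ℝ) (R : ℝ) : Prop := (∀ s, 0 ≤ f s) ∧ ∀ S : Finset Stp, ∑ s ∈ S, f s ≤ R

private theorem tot_nonneg {f : Stp → ℝ} {R : ℝ} (hf : Tot f R) : 0 ≤ R := by
  have h := hf.2 ∅
  rwa [Finset.sum_empty] at h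

/-- the pair of numbers of a step -/
private def pr2 : Stp → ℕ × ℕ
  | .T => (0, 0)
  | .L k a => (k, a)
  | .R k a => (k, a)

theorem tot_of {f : Stp → ℝ} {α R : ℝ} {β γ : ℕ × ℕ → ℝ} (hT : f .T = α) (hL : ∀ k a, f (.L k a) = β (k, a))
    (hR : ∀ k a, f (.R k a) = γ (k, a)) (h0 : ∀ s, 0 ≤ f s) (hβ : Summable β) (hγ : Summable γ)
    (h : α + ∑' t, β t + ∑' t, γ t ≤ R) : Tot f R := by
  refine ⟨h0, fun F => ?_⟩
  obtain ⟨Z, hZ⟩ : ∃ Z : Finset (ℕ × ℕ), Z = F.image pr2 := ⟨_, rfl⟩
  obtain ⟨LL, hLL⟩ : ∃ LL : ℕ × ℕ → Stp, ∀ z, LL z = .L z.1 z.2 := ⟨fun z => .L z.1 z.2, fun _ => rfl⟩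
  obtain ⟨RR, hRR⟩ : ∃ RR : ℕ × ℕ → Stp, ∀ z, RR z = .R z.1 z.2 := ⟨fun z => .R z.1 z.2, fun _ => rfl⟩
  have hsub : F ⊆ {Stp.T} ∪ (Z.image LL ∪ Z.image RR) := by
    intro s hs
    have hz : pr2 s ∈ Z := by
      rw [hZ]
      exact Finset.mem_image_of_mem pr2 hs
    cases s with
    | T => exact Finset.mem_union_left _ (Finset.mem_singleton_self _)
    | L k a =>
      exact Finset.mem_union_right _ (Finset.mem_union_left _
        (Finset.mem_image.mpr ⟨(k, a), hz, hLL _⟩))
    | R k a =>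
      exact Finset.mem_union_right _ (Finset.mem_union_right _
        (Finset.mem_image.mpr ⟨(k, a), hz, hRR _⟩))
  have hiL : Function.Injective LL := by
    intro u v huv
    rw [hLL, hLL] at huv
    injection huv with h1 h2
    exact Prod.ext h1 h2
  have hiR : Function.Injective RR := by
    intro u v huv
    rw [hRR, hRR] at huv
    injection huv with h1 h2
    exact Prod.ext h1 h2
  have hun : ∀ A B : Finset Stp, ∑ s ∈ A ∪ B, f s ≤ ∑ s ∈ A, f s + ∑ s ∈ B, f s := by
    intro A B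
    rw [← Finset.sum_union_inter]
    exact le_add_of_nonneg_right (Finset.sum_nonneg fun s _ => h0 s)
  have eL : ∀ z, f (LL z) = β z := fun z => by rw [hLL, hL]
  have eR : ∀ z, f (RR z) = γ z := fun z => by rw [hRR, hR]
  have e1 : ∑ z ∈ Z, f (LL z) ≤ ∑' t, β t := by
    rw [Finset.sum_congr rfl fun z _ => eL z]
    exact hβ.sum_le_tsum Z fun z _ => by rw [← eL]; exact h0 _
  have e2 : ∑ z ∈ Z, f (RR z) ≤ ∑' t, γ t := by
    rw [Finset.sum_congr rfl fun z _ => eR z]
    exact hγ.sum_le_tsum Z fun z _ => by rw [← eR]; exact h0 _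
  calc ∑ s ∈ F, f s ≤ ∑ s ∈ {Stp.T} ∪ (Z.image LL ∪ Z.image RR), f s :=
        Finset.sum_le_sum_of_subset_of_nonneg hsub fun s _ _ => h0 s
    _ ≤ ∑ s ∈ {Stp.T}, f s + (∑ s ∈ Z.image LL, f s + ∑ s ∈ Z.image RR, f s) :=
        (hun _ _).trans (add_le_add le_rfl (hun _ _))
    _ = α + (∑ z ∈ Z, f (LL z) + ∑ z ∈ Z, f (RR z)) := by
        rw [Finset.sum_singleton, Finset.sum_image hiL.injOn, Finset.sum_image hiR.injOn, hT]
    _ ≤ R := by linarith

/-! ### Splitting off the first letter -/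

/-- the words `v` with `s :: v ∈ S` -/
private noncomputable def tls (S : Finset (List Stp)) (s : Stp) : Finset (List Stp) :=
  (S.filter fun w => w.head? = some s).image List.tail

private theorem mem_tls {S : Finset (List Stp)} {s : Stp} {v : List Stp} : v ∈ tls S s ↔ s :: v ∈ S := by
  unfold tls
  rw [Finset.mem_image]
  constructor
  · rintro ⟨w, hw, rfl⟩
    obtain ⟨h1, h2⟩ := Finset.mem_filter.1 hw
    cases w with
    | nil => simp at h2
    | cons t w =>
      have h3 : t = s := by simpa using h2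
      rw [← h3]
      exact h1
  · intro h
    exact ⟨s :: v, Finset.mem_filter.2 ⟨h, rfl⟩, rfl⟩

private theorem sum_split (f : Stp → ℝ) (S : Finset (List Stp)) (h0 : [] ∉ S) :
    ∑ w ∈ S, (w.map f).prod =
      ∑ s ∈ S.image (fun w => w.headD .T), f s * ∑ v ∈ tls S s, (v.map f).prod := by
  have h1 : ∀ s, (tls S s).image (fun v => s :: v) = S.filter fun w => w.headD .T = s := by
    intro s
    ext w
    rw [Finset.mem_image, Finset.mem_filter]
    constructor
    · rintro ⟨v, hv, rfl⟩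
      exact ⟨mem_tls.1 hv, rfl⟩
    · rintro ⟨hw, hs⟩
      cases w with
      | nil => exact absurd hw h0
      | cons t w =>
        have h3 : t = s := hs
        rw [← h3]
        exact ⟨w, mem_tls.2 hw, rfl⟩
  have h2 : ∀ s, ∑ w ∈ S.filter (fun w => w.headD .T = s), (w.map f).prod =
      f s * ∑ v ∈ tls S s, (v.map f).prod := by
    intro s
    rw [← h1 s, Finset.sum_image (fun u _ v _ huv => List.tail_eq_of_cons_eq huv), Finset.mul_sum]
    exact Finset.sum_congr rfl fun v _ => by rw [List.map_cons, List.prod_cons]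
  rw [← Finset.sum_fiberwise_of_maps_to
    (g := fun w : List Stp => w.headD .T) (fun w hw => Finset.mem_image_of_mem _ hw)]
  exact Finset.sum_congr rfl fun s _ => h2 s

private theorem sum_le_nil (f : Stp → ℝ) (S : Finset (List Stp)) (h : ∀ w ∈ S, w = []) :
    ∑ w ∈ S, (w.map f).prod ≤ 1 := by
  have h1 : S ⊆ {[]} := fun w hw => Finset.mem_singleton.2 (h w hw)
  refine (Finset.sum_le_sum_of_subset_of_nonneg h1 fun w hw _ => ?_).trans ?_
  · rw [Finset.mem_singleton.1 hw, List.map_nil, List.prod_nil]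
    exact zero_le_one
  · rw [Finset.sum_singleton, List.map_nil, List.prod_nil]

/-- one step of the inductions -/
private theorem sum_step {f : Stp → ℝ} {R M : ℝ} (hf : Tot f R) (hM : 0 ≤ M) (S : Finset (List Stp))
    (h0 : [] ∉ S) (h : ∀ s, ∑ v ∈ tls S s, (v.map f).prod ≤ M) : ∑ w ∈ S, (w.map f).prod ≤ R * M := by
  rw [sum_split f S h0]
  calc ∑ s ∈ S.image (fun w => w.headD .T), f s * ∑ v ∈ tls S s, (v.map f).prod
      ≤ ∑ s ∈ S.image (fun w => w.headD .T), f s * M :=
        Finset.sum_le_sum fun s _ => mul_le_mul_of_nonneg_left (h s) (hf.1 s)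
    _ = (∑ s ∈ S.image (fun w => w.headD .T), f s) * M := by rw [Finset.sum_mul]
    _ ≤ R * M := mul_le_mul_of_nonneg_right (hf.2 _) hM

private theorem prod_pf_aux {f : Stp → ℝ} (hf : Tot f 1) : ∀ (n : ℕ) (S : Finset (List Stp)),
    PF S → (∀ w ∈ S, w.length ≤ n) → ∑ w ∈ S, (w.map f).prod ≤ 1 := by
  intro n
  induction n with
  | zero =>
    intro S _ hl
    exact sum_le_nil f S fun w hw => List.eq_nil_of_length_eq_zero (Nat.le_zero.1 (hl w hw))
  | succ n ih =>
    intro S hS hl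
    by_cases h0 : [] ∈ S
    · exact sum_le_nil f S fun w hw => (hS [] h0 w hw List.nil_prefix).symm
    · refine (sum_step hf zero_le_one S h0 fun s => ih (tls S s) ?_ ?_).trans_eq (one_mul 1)
      · intro u hu w hw huw
        have h1 := hS _ (mem_tls.1 hu) _ (mem_tls.1 hw) ((List.prefix_cons_inj s).2 huw)
        exact List.tail_eq_of_cons_eq h1
      · intro v hv
        have h1 := hl _ (mem_tls.1 hv)
        rw [List.length_cons] at h1
        omega

theorem prod_pf {f : Stp → ℝ} (hf : Tot f 1) (S : Finset (List Stp)) (h : PF S) :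
    ∑ w ∈ S, (w.map f).prod ≤ 1 :=
  prod_pf_aux hf (S.sup List.length) S h fun _ hw => Finset.le_sup (f := List.length) hw

theorem prod_len {f : Stp → ℝ} {R : ℝ} (hf : Tot f R) (n : ℕ) (S : Finset (List Stp))
    (h : ∀ w ∈ S, w.length = n) : ∑ w ∈ S, (w.map f).prod ≤ R ^ n := by
  induction n generalizing S with
  | zero =>
    rw [pow_zero]
    exact sum_le_nil f S fun w hw => List.eq_nil_of_length_eq_zero (h w hw)
  | succ n ih =>
    have h0 : [] ∉ S := fun h1 => absurd (h [] h1) (by simp)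
    rw [pow_succ']
    refine sum_step hf (pow_nonneg (tot_nonneg hf) n) S h0 fun s => ih (tls S s) fun v hv => ?_
    have h1 := h _ (mem_tls.1 hv)
    rw [List.length_cons] at h1
    omega

theorem prod_all {f : Stp → ℝ} {R : ℝ} (hf : Tot f R) (hR : R < 1) (S : Finset (List Stp)) :
    ∑ w ∈ S, (w.map f).prod ≤ 1 / (1 - R) := by
  have hR0 := tot_nonneg hf
  rw [← Finset.sum_fiberwise_of_maps_to
    (g := List.length) (fun w hw => Finset.mem_image_of_mem _ hw)]
  calc ∑ n ∈ S.image List.length, ∑ w ∈ S.filter (fun w => w.length = n), (w.map f).prod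
      ≤ ∑ n ∈ S.image List.length, R ^ n :=
        Finset.sum_le_sum fun n _ => prod_len hf n _ fun w hw => (Finset.mem_filter.1 hw).2
    _ ≤ ∑' n : ℕ, R ^ n :=
        (summable_geometric_of_lt_one hR0 hR).sum_le_tsum _ fun n _ => pow_nonneg hR0 n
    _ = 1 / (1 - R) := by rw [tsum_geometric_of_lt_one hR0 hR, one_div]

theorem tot_pr (hx : 0 < x) : Tot (fun s => s.wt (AA x) (qq x)) 1 := by
  have h1 := mass hx
  have hA : 0 ≤ AA x := by
    have := AA_gt x
    linarith
  refine tot_of (α := AA x) (β := fun t => qq x t.1 t.2) (γ := fun t => qq x t.1 t.2) rfl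
    (fun _ _ => rfl) (fun _ _ => rfl) (fun s => s.wt_nonneg hA (qq_nonneg x)) h1.summable h1.summable ?_
  rw [h1.tsum_eq]
  linarith

/-- Prefix-free sets have total probability at most `1`. -/
theorem PRW_pf (hx : 0 < x) (S : Finset (List Stp)) (h : PF S) : ∑ w ∈ S, PRW x w ≤ 1 :=
  prod_pf (tot_pr hx) S h

end SYS.Num
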