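import Pool.Agent.SYS.PL.Law
import Pool.Agent.SYS.GR.Defs

/-!
# SYS-PL-Gr: the law of the steps as a `GR.Law`

`kap = 2 x`.
-/

namespace SYS.Num

open Real

variable {x : ℝ}

private theorem gr_a (hx : 0 < x) :
    ∑' z : ℕ × ℕ, ((z.1 : ℝ) + 1) * qq x z.1 z.2 = (2 * AA x - 1 - dr x) / 2 := by
  have h1 := mass hx
  have h2 := mean hx
  have h3 := h2.sub h1
  have h4 : (fun t : ℕ × ℕ => ((t.1 : ℝ) + 2) * qq x t.1 t.2 - qq x t.1 t.2) =
      fun t : ℕ × ℕ => ((t.1 : ℝ) + 1) * qq x t.1 t.2 := by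
    funext t
    ring
  rw [h4] at h3
  rw [h3.tsum_eq]
  ring

/-- The law of the steps with the parameter `x`. -/
noncomputable def law (hx : 0 < x) : GR.Law where
  A := AA x
  q := qq x
  e := (expm hx).choose
  hA := AA_gt x
  hq := qq_nonneg x
  he := (expm hx).choose_spec.1
  hs := (expm hx).choose_spec.2
  mass := by
    rw [(mass hx).tsum_eq]
    ring
  hd := by
    rw [(mean hx).tsum_eq]
    have := dr_pos hx
    linarith
  ha := by
    rw [gr_a hx]
    have := dr_lt hx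
    linarith

theorem law_A (hx : 0 < x) : (law hx).A = AA x := rfl

theorem law_q (hx : 0 < x) : (law hx).q = qq x := rfl

theorem law_w (hx : 0 < x) (s : Stp) : (law hx).w s = s.wt (AA x) (qq x) := rfl

theorem law_ww (hx : 0 < x) (w : List Stp) : (law hx).ww w = PRW x w := rfl

theorem law_d (hx : 0 < x) : (law hx).d = dr x := by
  show AA x - 2 * ∑' z : ℕ × ℕ, ((z.1 : ℝ) + 2) * qq x z.1 z.2 = dr x
  rw [(mean hx).tsum_eq]
  ring

theorem law_a (hx : 0 < x) : (law hx).a = (2 * AA x - 1 - dr x) / 2 := gr_a hx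

theorem law_kap (hx : 0 < x) : (law hx).kap = 2 * x := by
  unfold GR.Law.kap
  rw [law_d, law_a]
  have h1 := dr_lt hx
  have h2 : 1 + dr x / ((2 * AA x - 1 - dr x) / 2) =
      (2 * AA x - 1 + dr x) / (2 * AA x - 1 - dr x) := by
    have h3 : 2 * AA x - 1 - dr x ≠ 0 := by
      intro h
      linarith
    field_simp
    ring
  rw [h2, exp_two hx, Real.log_exp]

end SYS.Num
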