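import Pool.Agent.SYS.PL.ClsA

/-!
# SYS-PL-Cls: closed form of the disc functions
-/

namespace SYS.Num

open PowerSeries

variable {x : ℝ}

noncomputable def Wx (x : ℝ) : PowerSeries ℝ := PowerSeries.mk (wk x)

private theorem cls_zero (y w : ℝ) (f : PowerSeries ℝ) :
    coeff 0 (C y * X ^ 3 * f ^ 2 + (1 - X) * f + X - 1 - C w * X) = coeff 0 f - 1 := by
  rw [sub_mul, one_mul, mul_assoc]
  simp only [map_sub, map_add, coeff_C_mul, coeff_X_pow_mul', coeff_zero_X_mul, coeff_zero_one, coeff_zero_X]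
  norm_num

private theorem cls_one (y w : ℝ) (f : PowerSeries ℝ) :
    coeff 1 (C y * X ^ 3 * f ^ 2 + (1 - X) * f + X - 1 - C w * X) = coeff 1 f - coeff 0 f + 1 - w := by
  rw [sub_mul, one_mul, mul_assoc]
  have h1 : coeff 1 (X * f) = coeff 0 f := coeff_succ_X_mul 0 f
  simp only [map_sub, map_add, coeff_C_mul, coeff_X_pow_mul', h1, coeff_one_X, coeff_one]
  norm_num

private theorem cls_two (y w : ℝ) (f : PowerSeries ℝ) :
    coeff 2 (C y * X ^ 3 * f ^ 2 + (1 - X) * f + X - 1 - C w * X) = coeff 2 f - coeff 1 f := by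
  rw [sub_mul, one_mul, mul_assoc]
  have h1 : coeff 2 (X * f) = coeff 1 f := coeff_succ_X_mul 1 f
  simp only [map_sub, map_add, coeff_C_mul, coeff_X_pow_mul', h1, coeff_X, coeff_one]
  norm_num

private theorem cls_three (y w : ℝ) (f : PowerSeries ℝ) (m : ℕ) :
    coeff (m + 3) (C y * X ^ 3 * f ^ 2 + (1 - X) * f + X - 1 - C w * X) =
      y * coeff m (f ^ 2) + coeff (m + 3) f - coeff (m + 2) f := by
  rw [sub_mul, one_mul, mul_assoc]
  have h1 : coeff (m + 3) (X * f) = coeff (m + 2) f := coeff_succ_X_mul (m + 2) f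
  have h2 : coeff (m + 3) (X ^ 3 * f ^ 2) = coeff m (f ^ 2) := by
    rw [coeff_X_pow_mul', if_pos (by omega), Nat.add_sub_cancel]
  have h3 : coeff (m + 3) (X : PowerSeries ℝ) = 0 := by rw [coeff_X, if_neg (by omega)]
  have h4 : coeff (m + 3) (1 : PowerSeries ℝ) = 0 := by rw [coeff_one, if_neg (by omega)]
  simp only [map_sub, map_add, coeff_C_mul, h1, h2, h3, h4]
  ring

theorem quad (hx : 0 < x) : C (yy x) * X ^ 3 * Wx x ^ 2 + (1 - X) * Wx x + X - 1 -
    C (wk x 1) * X = 0 := by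
  have hW : ∀ k, coeff k (Wx x) = wk x k := fun k => coeff_mk _ _
  ext n
  rw [map_zero]
  rcases n with _ | _ | _ | m
  · rw [cls_zero, hW, wk_zero, sub_self]
  · rw [cls_one, hW, hW, wk_zero]
    ring
  · rw [cls_two, hW, hW, wk_two hx, sub_self]
  · rw [cls_three, hW, hW, pow_two, coeff_mul]
    simp only [hW]
    rw [wk_rec hx m]
    ring

private theorem cls_poly (u w y : ℝ) (hy : y = u * (1 - u) * (1 - 2 * u) / 2)
    (hw : w * (2 * (1 - 2 * u)) = u * (1 - 3 * u)) :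
    ((1 : PowerSeries ℝ) - C (1 - u) * X) ^ 2 * (1 - C (2 * u) * X - C (u * (2 - 3 * u)) * X ^ 2) =
      (1 - X) ^ 2 + C (4 * y) * X ^ 3 * (1 + C (w - 1) * X) := by
  have h1 : (C (4 * y) : PowerSeries ℝ) = C (2 * u * (1 - u) * (1 - 2 * u)) := by
    rw [hy]
    congr 1
    ring
  have h2 : (C (4 * y) : PowerSeries ℝ) * C (w - 1) = C (u ^ 2 * (1 - u) * (1 - 3 * u) - 2 * u * (1 - u) * (1 - 2 * u)) := by
    rw [← map_mul]
    congr 1
    rw [hy]
    linear_combination (u * (1 - u)) * hw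
  have h3 : C (4 * y) * X ^ 3 * (1 + C (w - 1) * X) =
      C (4 * y) * X ^ 3 + (C (4 * y) * C (w - 1)) * (X : PowerSeries ℝ) ^ 4 := by ring
  rw [h3, h2, h1]
  simp only [map_sub, map_mul, map_one, map_ofNat, map_pow]
  ring

theorem cls (hx : 0 < x) {S : PowerSeries ℝ} (h1 : constantCoeff S = 1)
    (h2 : S ^ 2 = 1 - C (2 * uu x) * X - C (uu x * (2 - 3 * uu x)) * X ^ 2) :
    C (2 * yy x) * X ^ 3 * Wx x = X - 1 + (1 - C (AA x) * X) * S := by
  have hu := uu_lt x
  have hA : AA x = 1 - uu x := by unfold uu; ring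
  have hw : wk x 1 * (2 * (1 - 2 * uu x)) = uu x * (1 - 3 * uu x) := by
    rw [wk_one hx, div_mul_cancel₀]
    exact ne_of_gt (by linarith)
  have hq := quad hx
  have hp := cls_poly (uu x) (wk x 1) (yy x) (yy_eq x) hw
  have c2 : (C (2 * yy x) : PowerSeries ℝ) = 2 * C (yy x) := by rw [map_mul, map_ofNat]
  have c4 : (C (4 * yy x) : PowerSeries ℝ) = 4 * C (yy x) := by rw [map_mul, map_ofNat]
  have cw : (C (wk x 1 - 1) : PowerSeries ℝ) = C (wk x 1) - 1 := by rw [map_sub, map_one]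
  have key : (C (2 * yy x) * X ^ 3 * Wx x + 1 - X) ^ 2 = ((1 - C (AA x) * X) * S) ^ 2 := by
    rw [mul_pow, h2, hA, hp, c2, c4, cw]
    linear_combination (4 * C (yy x) * X ^ 3) * hq
  have hne : C (2 * yy x) * X ^ 3 * Wx x + 1 - X ≠ -((1 - C (AA x) * X) * S) := by
    intro h
    have h3 := congrArg (constantCoeff (R := ℝ)) h
    simp [h1] at h3
    linarith
  rcases sq_eq_sq_iff_eq_or_eq_neg.1 key with h | h
  · linear_combination h
  · exact absurd h hne

private theorem cls_coeff (a b : ℝ) (f S : PowerSeries ℝ)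
    (h : C a * X ^ 3 * f = X - 1 + (1 - C b * X) * S) (k : ℕ) :
    a * coeff k f = coeff (k + 3) S - b * coeff (k + 2) S := by
  have h1 := congrArg (coeff (k + 3)) h
  rw [sub_mul, one_mul, mul_assoc, mul_assoc] at h1
  have h2 : coeff (k + 3) (X ^ 3 * f) = coeff k f := by
    rw [coeff_X_pow_mul', if_pos (by omega), Nat.add_sub_cancel]
  have h3 : coeff (k + 3) (X : PowerSeries ℝ) = 0 := by rw [coeff_X, if_neg (by omega)]
  have h4 : coeff (k + 3) (1 : PowerSeries ℝ) = 0 := by rw [coeff_one, if_neg (by omega)]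
  have h5 : coeff (k + 3) (X * S) = coeff (k + 2) S := coeff_succ_X_mul (k + 2) S
  simp only [map_sub, map_add, coeff_C_mul, h2, h3, h4, h5] at h1
  linarith

theorem wk_le (hx : 0 < x) : ∃ K : ℝ, 0 < K ∧ ∀ k, wk x k ≤ K * (k + 1) * BB x ^ k := by
  obtain ⟨S, h1, h2, h3⟩ := exists_S x
  have hc := cls hx h1 h2
  have hu0 := uu_pos x
  have hu1 := uu_lt x
  have hA : AA x = 1 - uu x := by unfold uu; ring
  have hA0 : 0 < AA x := by rw [hA]; linarith
  have hB := BB_pos x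
  have hy : 0 < yy x := by
    rw [yy_eq]
    have a1 : 0 < 1 - uu x := by linarith
    have a2 : 0 < 1 - 2 * uu x := by linarith
    positivity
  refine ⟨(4 * BB x ^ 3 + 3 * AA x * BB x ^ 2) / (2 * yy x), by positivity, fun k => ?_⟩
  have h4 := cls_coeff _ _ _ _ hc k
  have hW : coeff k (Wx x) = wk x k := coeff_mk _ _
  rw [hW] at h4
  have h5 := (abs_le.1 (h3 (k + 3))).2
  have h6 := (abs_le.1 (h3 (k + 2))).1
  have hk : (0 : ℝ) ≤ k := Nat.cast_nonneg k
  have hBk : 0 < BB x ^ k := pow_pos hB k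
  have h7 : 2 * yy x * wk x k ≤ (4 * BB x ^ 3 + 3 * AA x * BB x ^ 2) * ((k + 1) * BB x ^ k) := by
    rw [h4]
    have e1 : coeff (k + 3) S ≤ 4 * (k + 1) * (BB x ^ 3 * BB x ^ k) := by
      refine le_trans h5 ?_
      rw [pow_add, mul_comm (BB x ^ k)]
      push_cast
      exact mul_le_mul_of_nonneg_right (by linarith) (by positivity)
    have e2 : -coeff (k + 2) S ≤ 3 * (k + 1) * (BB x ^ 2 * BB x ^ k) := by
      have e3 : -coeff (k + 2) S ≤ (((k + 2 : ℕ) : ℝ) + 1) * BB x ^ (k + 2) := by linarith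
      refine le_trans e3 ?_
      rw [pow_add, mul_comm (BB x ^ k)]
      push_cast
      exact mul_le_mul_of_nonneg_right (by linarith) (by positivity)
    have e4 := mul_le_mul_of_nonneg_left e2 hA0.le
    nlinarith [e1, e4]
  have h8 : (4 * BB x ^ 3 + 3 * AA x * BB x ^ 2) / (2 * yy x) * (k + 1) * BB x ^ k =
      (4 * BB x ^ 3 + 3 * AA x * BB x ^ 2) * ((k + 1) * BB x ^ k) / (2 * yy x) := by ring
  rw [h8, le_div_iff₀ (by positivity)]
  linarith

end SYS.Num
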