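import Pool.Agent.SYS.PL.Wk

/-!
# SYS-PL-ClsA: the square root of `1 - 2u X - u(2-3u) X²`

PROOF. `S = s(BB) s(BC)` with `s(b) = ∑ c_k b^k X^k`, `c_k` the coefficients of `√(1 - X)`: `|c_k| ≤ 1` and `(∑ c_k X^k)² = 1 - X`. E.g. `c_0 = 1`, `c_1 = -1/2`, `2 c_n = - ∑_{0<i<n} c_i c_{n-i}` for `n ≥ 2`; all `c_n ≤ 0` for `n ≥ 1`, and the partial sums `p_N = ∑_{1≤n≤N} |c_n|` satisfy `2 p_N ≤ 1 + p_{N-1}² ≤ 2`, so `p_N ≤ 1`.
(Or through Catalan numbers or binomial series.) `S² = (1 - BB X)(1 - BC X)` (`BB_add`, `BB_mul`), `|[X^k] S| ≤ ∑_{i+j=k} BB^i |BC|^j ≤ (k+1) BB^k` (`BC_abs`).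
-/

namespace SYS.Num

open PowerSeries

private theorem clsA_cat (n : ℕ) : catalan n ≤ 4 ^ n := by
  rw [catalan_eq_centralBinom_div]
  refine (Nat.div_le_self _ _).trans ?_
  unfold Nat.centralBinom
  refine (Nat.choose_le_two_pow (2 * n) n).trans ?_
  rw [pow_mul]
  norm_num

private theorem clsA_one : ∃ S : PowerSeries ℝ, constantCoeff S = 1 ∧ S ^ 2 = 1 - 4 * X ∧
    ∀ k, |coeff k S| ≤ 4 ^ k := by
  obtain ⟨T, hT⟩ : ∃ T : PowerSeries ℝ, T = PowerSeries.map (Nat.castRingHom ℝ) catalanSeries := ⟨_, rfl⟩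
  have h1 : T ^ 2 * X + 1 = T := by
    have h := congrArg (PowerSeries.map (Nat.castRingHom ℝ)) catalanSeries_sq_mul_X_add_one
    rw [map_add, map_mul, map_pow, map_one, PowerSeries.map_X, ← hT] at h
    exact h
  have h2 : ∀ k, coeff k T = (catalan k : ℝ) := by
    intro k
    rw [hT, PowerSeries.coeff_map, catalanSeries_coeff]
    rfl
  refine ⟨1 - 2 * (X * T), ?_, ?_, ?_⟩
  · rw [map_sub, map_one, map_mul, map_mul, PowerSeries.constantCoeff_X, zero_mul, mul_zero, sub_zero]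
  · have h3 : (1 - 2 * (X * T)) ^ 2 = 1 - 4 * X + 4 * X * (T ^ 2 * X + 1 - T) := by ring
    rw [h3, h1, sub_self, mul_zero, add_zero]
  · intro k
    have h4 : (2 * (X * T) : PowerSeries ℝ) = C 2 * (X * T) := rfl
    rw [map_sub, h4, PowerSeries.coeff_C_mul]
    cases k with
    | zero =>
      rw [PowerSeries.coeff_zero_X_mul, PowerSeries.coeff_zero_one]
      norm_num
    | succ k =>
      rw [PowerSeries.coeff_succ_X_mul, h2, PowerSeries.coeff_one, if_neg (Nat.succ_ne_zero k), zero_sub,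
        abs_neg, abs_of_nonneg (by positivity)]
      have h5 : (catalan k : ℝ) ≤ 4 ^ k := by exact_mod_cast clsA_cat k
      have h6 : (0 : ℝ) < 4 ^ k := by positivity
      rw [pow_succ]
      linarith

private theorem clsA_b (b : ℝ) : ∃ S : PowerSeries ℝ, constantCoeff S = 1 ∧ S ^ 2 = 1 - C b * X ∧
    ∀ k, |coeff k S| ≤ |b| ^ k := by
  obtain ⟨S, h0, h1, h2⟩ := clsA_one
  refine ⟨PowerSeries.rescale (b / 4) S, ?_, ?_, ?_⟩
  · rw [← PowerSeries.coeff_zero_eq_constantCoeff_apply, PowerSeries.coeff_rescale, pow_zero, one_mul,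
      PowerSeries.coeff_zero_eq_constantCoeff_apply, h0]
  · rw [← map_pow, h1]
    have h4 : (4 * X : PowerSeries ℝ) = C 4 * X := rfl
    rw [h4]
    ext n
    rw [PowerSeries.coeff_rescale, map_sub, map_sub, PowerSeries.coeff_C_mul, PowerSeries.coeff_C_mul,
      PowerSeries.coeff_one, PowerSeries.coeff_X]
    by_cases hn : n = 1
    · rw [if_pos hn, if_neg (by rw [hn]; exact one_ne_zero), hn]
      ring
    · rw [if_neg hn]
      by_cases h0 : n = 0
      · rw [if_pos h0, h0]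
        ring
      · rw [if_neg h0]
        ring
  · intro k
    rw [PowerSeries.coeff_rescale, abs_mul, abs_pow]
    have h3 := h2 k
    have h5 : |b / 4| ^ k * 4 ^ k = |b| ^ k := by
      rw [← mul_pow, abs_div, abs_of_pos (show (0 : ℝ) < 4 by norm_num)]
      congr 1
      ring
    rw [← h5]
    exact mul_le_mul_of_nonneg_left h3 (by positivity)

theorem exists_S (x : ℝ) : ∃ S : PowerSeries ℝ, constantCoeff S = 1 ∧
    S ^ 2 = 1 - C (2 * uu x) * X - C (uu x * (2 - 3 * uu x)) * X ^ 2 ∧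
    ∀ k, |coeff k S| ≤ (k + 1) * BB x ^ k := by
  obtain ⟨S, h0, h1, h2⟩ := clsA_b (BB x)
  obtain ⟨T, g0, g1, g2⟩ := clsA_b (BC x)
  refine ⟨S * T, ?_, ?_, ?_⟩
  · rw [map_mul, h0, g0, one_mul]
  · have e1 : C (2 * uu x) = C (BB x) + C (BC x) := by
      rw [← map_add, BB_add]
    have e2 : C (uu x * (2 - 3 * uu x)) = -(C (BB x) * C (BC x)) := by
      rw [← map_mul, BB_mul, map_neg, neg_neg]
    rw [mul_pow, h1, g1, e1, e2]
    ring
  · intro k
    rw [PowerSeries.coeff_mul]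
    refine (Finset.abs_sum_le_sum_abs _ _).trans ?_
    have hB := BB_pos x
    have hC := BC_abs x
    have h3 : ∀ a ∈ Finset.HasAntidiagonal.antidiagonal k, |coeff a.1 S * coeff a.2 T| ≤ BB x ^ k := by
      intro a ha
      have h4 : a.1 + a.2 = k := Finset.HasAntidiagonal.mem_antidiagonal.1 ha
      rw [abs_mul, ← h4, pow_add]
      have h5 := h2 a.1
      rw [abs_of_pos hB] at h5
      have h6 := (g2 a.2).trans (pow_le_pow_left₀ (abs_nonneg _) hC.le a.2)
      exact mul_le_mul h5 h6 (abs_nonneg _) (by positivity)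
    refine (Finset.sum_le_sum h3).trans ?_
    rw [Finset.sum_const, Finset.Nat.card_antidiagonal, nsmul_eq_mul]
    push_cast
    exact le_refl _

end SYS.Num
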