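import Pool.Agent.SYS.Num.Defs

/-!
# SYS-PL-Par: the parametrisation by `x > 0`
-/

namespace SYS.Num

open Real

/-- `u = 1 - A`. -/
noncomputable def uu (x : ℝ) : ℝ := 1 - AA x

noncomputable def BB (x : ℝ) : ℝ := (rr x - cosh x + 2) / (2 * rr x)

noncomputable def BC (x : ℝ) : ℝ := (rr x - cosh x - 2) / (2 * rr x)

variable {x : ℝ}

theorem rr_pos (x : ℝ) : 0 < rr x := by
  unfold rr
  positivity

theorem rr_sq (x : ℝ) : rr x ^ 2 = cosh x ^ 2 + 2 := by
  unfold rr
  exact Real.sq_sqrt (by positivity)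

theorem cosh_lt_rr (x : ℝ) : cosh x < rr x := by
  unfold rr
  rw [Real.lt_sqrt (Real.cosh_pos x).le]
  linarith

theorem AA_gt (x : ℝ) : 1 / 2 < AA x := by
  have h1 := rr_pos x
  have h2 := Real.cosh_pos x
  unfold AA
  rw [div_lt_div_iff₀ (by norm_num) (by positivity)]
  linarith

theorem AA_lt (x : ℝ) : AA x < 1 := by
  have h1 := rr_pos x
  have h2 := cosh_lt_rr x
  unfold AA
  rw [div_lt_one (by positivity)]
  linarith

theorem uu_pos (x : ℝ) : 0 < uu x := by
  have h1 := AA_lt x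
  unfold uu
  linarith

theorem uu_lt (x : ℝ) : uu x < 1 / 2 := by
  have h1 := AA_gt x
  unfold uu
  linarith

theorem yy_pos (x : ℝ) : 0 < yy x := by
  have h1 := rr_pos x
  have h2 := Real.cosh_pos x
  unfold yy
  positivity

theorem yy_eq (x : ℝ) : yy x = uu x * (1 - uu x) * (1 - 2 * uu x) / 2 := by
  have h1 := rr_pos x
  have h2 := rr_sq x
  have h3 : rr x ≠ 0 := h1.ne'
  unfold yy uu AA
  have h4 : cosh x / (4 * rr x ^ 3) - (1 - (rr x + cosh x) / (2 * rr x)) *
      (1 - (1 - (rr x + cosh x) / (2 * rr x))) *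
      (1 - 2 * (1 - (rr x + cosh x) / (2 * rr x))) / 2 =
      cosh x * (2 - (rr x ^ 2 - cosh x ^ 2)) / (8 * rr x ^ 3) := by
    field_simp
    ring
  rw [← sub_eq_zero, h4, h2]
  ring

theorem dr_pos (hx : 0 < x) : 0 < dr x := by
  unfold dr
  exact div_pos (Real.sinh_pos_iff.2 hx) (rr_pos x)

theorem dr_sq (x : ℝ) : dr x ^ 2 = 6 * AA x ^ 2 - 6 * AA x + 1 := by
  have h1 := rr_pos x
  have h2 := rr_sq x
  have h3 : rr x ≠ 0 := h1.ne'
  have h5 := Real.cosh_sq x
  unfold dr AA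
  have h4 : (sinh x / rr x) ^ 2 - (6 * ((rr x + cosh x) / (2 * rr x)) ^ 2 -
      6 * ((rr x + cosh x) / (2 * rr x)) + 1) =
      (2 * sinh x ^ 2 - 3 * cosh x ^ 2 + rr x ^ 2) / (2 * rr x ^ 2) := by
    field_simp
    ring
  rw [← sub_eq_zero, h4, h2, h5]
  ring

theorem dr_sq' (x : ℝ) : dr x ^ 2 = 6 * uu x ^ 2 - 6 * uu x + 1 := by
  rw [dr_sq]
  unfold uu
  ring

theorem dr_lt (hx : 0 < x) : dr x < 2 * AA x - 1 := by
  have h1 := rr_pos x
  have h2 : 2 * AA x - 1 = cosh x / rr x := by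
    unfold AA
    field_simp
    ring
  rw [h2]
  unfold dr
  exact div_lt_div_of_pos_right (Real.sinh_lt_cosh x) h1

theorem exp_two (hx : 0 < x) : (2 * AA x - 1 + dr x) / (2 * AA x - 1 - dr x) = exp (2 * x) := by
  have h1 := rr_pos x
  have h2 : 2 * AA x - 1 = cosh x / rr x := by
    unfold AA
    field_simp
    ring
  have h3 : (2 * AA x - 1 + dr x) = exp x / rr x := by
    rw [h2, ← Real.cosh_add_sinh]
    unfold dr
    ring
  have h4 : (2 * AA x - 1 - dr x) = exp (-x) / rr x := by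
    rw [h2, ← Real.cosh_sub_sinh]
    unfold dr
    ring
  rw [h3, h4, div_div_div_cancel_right₀ h1.ne', ← Real.exp_sub]
  congr 1
  ring

theorem BB_pos (x : ℝ) : 0 < BB x := by
  have h1 := rr_pos x
  have h2 := cosh_lt_rr x
  unfold BB
  exact div_pos (by linarith) (by positivity)

theorem BB_lt (hx : 0 < x) : BB x < AA x := by
  have h1 := rr_pos x
  have h2 : 1 < cosh x := Real.one_lt_cosh.2 hx.ne'
  unfold BB AA
  exact div_lt_div_of_pos_right (by linarith) (by positivity)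

theorem BC_abs (x : ℝ) : |BC x| < BB x := by
  have h1 := rr_pos x
  have h2 := cosh_lt_rr x
  unfold BB BC
  rw [abs_div, abs_of_pos (show 0 < 2 * rr x by positivity)]
  refine div_lt_div_of_pos_right ?_ (by positivity)
  rw [abs_lt]
  constructor <;> linarith

theorem BB_add (x : ℝ) : BB x + BC x = 2 * uu x := by
  have h1 := rr_pos x
  unfold BB BC uu AA
  field_simp
  ring

theorem BB_mul (x : ℝ) : BB x * BC x = -(uu x * (2 - 3 * uu x)) := by
  have h1 := rr_pos x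
  have h2 := rr_sq x
  have h3 : rr x ≠ 0 := h1.ne'
  unfold BB BC uu AA
  have h4 : (rr x - cosh x + 2) / (2 * rr x) * ((rr x - cosh x - 2) / (2 * rr x)) -
      -((1 - (rr x + cosh x) / (2 * rr x)) * (2 - 3 * (1 - (rr x + cosh x) / (2 * rr x)))) =
      (rr x ^ 2 - cosh x ^ 2 - 2) / (2 * rr x ^ 2) := by
    field_simp
    ring
  rw [← sub_eq_zero, h4, h2]
  ring

theorem yy_anti {x' x : ℝ} (h0 : 0 ≤ x') (h : x' < x) : yy x < yy x' := by
  have hsq : ∀ z : ℝ, yy z ^ 2 = cosh z ^ 2 / (16 * (cosh z ^ 2 + 2) ^ 3) := by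
    intro z
    have h1 := rr_sq z
    unfold yy
    rw [div_pow, ← h1]
    congr 1
    ring
  have h1 : cosh x' < cosh x := Real.cosh_lt_cosh.2 (by
    rw [abs_of_nonneg h0, abs_of_pos (h0.trans_lt h)]
    exact h)
  have h2 : 1 ≤ cosh x' := Real.one_le_cosh x'
  obtain ⟨t, ht⟩ : ∃ t, t = cosh x ^ 2 := ⟨_, rfl⟩
  obtain ⟨t', ht'⟩ : ∃ t', t' = cosh x' ^ 2 := ⟨_, rfl⟩
  have h3 : 1 ≤ t' := by rw [ht']; nlinarith
  have h4 : t' < t := by rw [ht, ht']; nlinarith
  have h7 : 0 < t' := by linarith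
  have h8 : 0 < t := by linarith
  refine lt_of_pow_lt_pow_left₀ 2 (yy_pos x').le ?_
  rw [hsq, hsq, ← ht, ← ht', div_lt_div_iff₀ (by positivity) (by positivity)]
  have h5 : 0 < (t - t') * (t * t' * (t + t') + 6 * (t * t') - 8) := by
    refine mul_pos (by linarith) ?_
    have h6 : 1 < t * t' := by nlinarith
    nlinarith
  nlinarith [h5]

theorem exists_near (hx : 0 < x) : ∃ x', 0 < x' ∧ x' < x ∧ BB x' < AA x ∧ yy x < yy x' := by
  have hr : Continuous rr := by
    unfold rr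
    fun_prop
  have hB : Continuous BB := by
    unfold BB
    exact Continuous.div (by fun_prop) (by fun_prop) fun z => by
      have := rr_pos z
      positivity
  have h1 : ∀ᶠ z in nhdsWithin x (Set.Iio x), BB z < AA x :=
    eventually_nhdsWithin_of_eventually_nhds (hB.continuousAt.eventually (gt_mem_nhds (BB_lt hx)))
  have h2 : ∀ᶠ z in nhdsWithin x (Set.Iio x), 0 < z :=
    eventually_nhdsWithin_of_eventually_nhds (lt_mem_nhds hx)
  have h3 : ∀ᶠ z in nhdsWithin x (Set.Iio x), z < x := eventually_mem_nhdsWithin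
  obtain ⟨z, hz1, hz2, hz3⟩ := (h1.and (h2.and h3)).exists
  exact ⟨z, hz2, hz3, hz1, yy_anti hz2.le hz3⟩

end SYS.Num
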