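import Pool.Agent.SYS.PL.For
import Pool.Agent.SYS.PL.Par

/-!
# SYS-PL-Cvg: convergence at `y = yy x`

PROOF. `us_partial`: `S_N = ∑_{n ≤ N} us_n y^n ≤ u* = uu x` by induction on `N`: `S_0 = 0`; `us = 2 X ∑_k c_k us^k`, `c_k = 2^{k+1} - 1` (from `us_eq`: `1/((1 - v)(1 - 2v)) = ∑ c_k v^k`), so `us_{n+1} = 2 ∑_{k ≤ n} c_k [X^n] us^k` and, all coefficients being nonnegative, `∑_{n ≤ N} [X^n](us^k) y^n ≤ S_N^k`;
hence `S_{N+1} ≤ 2 y ∑_k c_k S_N^k = 2y/((1 - S_N)(1 - 2 S_N)) ≤ 2y/((1-u*)(1-2u*)) = u*` (`yy_eq`, `u* < 1/2`). `us_sum`: summable, the sum `S ≤ u*` satisfies `S (1-S)(1-2S) = 2 y` (products of absolutely convergent power series, `us_eq`), as does `u*` (`yy_eq`), and `t (1-t)(1-2t)` is strictly increasing on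
`[0, u*]` (derivative `6t² - 6t + 1 ≥ 6u*² - 6u* + 1 = dr² > 0`, `dr_sq'`, `dr_pos`; or factor the difference). `WW_sum`: `WW_us`: `WW = us (1 - 3 us) * (2 (1 - 2us))⁻¹`; more simply: `WW = 2 us (WW) + us (1-3us)/2`, partial sums of `WW` (nonnegative coefficients, `WW_0 = 0`): `WW + (3/2) us² = us/2 + 2 us WW`, so
`T_N + (3/2)·(partial sum of us²) ≤ u*/2 + 2 u* T_N`: bounded as `2 u* < 1`; then the sum satisfies `2 (1 - 2u*) T = u* (1 - 3u*)`.
-/

namespace SYS.Num

open PowerSeries

variable {x : ℝ}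

private theorem cvg_prod (a b : ℕ → ℝ) (ha : ∀ n, 0 ≤ a n) (hb : ∀ n, 0 ≤ b n) (N : ℕ) :
    ∑ n ∈ Finset.range N, ∑ p ∈ Finset.HasAntidiagonal.antidiagonal n, a p.1 * b p.2 ≤
      (∑ n ∈ Finset.range N, a n) * ∑ n ∈ Finset.range N, b n := by
  have h1 : ∑ n ∈ Finset.range N, ∑ p ∈ Finset.HasAntidiagonal.antidiagonal n, a p.1 * b p.2 =
      ∑ p ∈ (Finset.range N).biUnion Finset.HasAntidiagonal.antidiagonal, a p.1 * b p.2 := by
    rw [Finset.sum_biUnion]
    intro n _ m _ hnm
    rw [Function.onFun, Finset.disjoint_left]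
    intro p hp hq
    rw [Finset.HasAntidiagonal.mem_antidiagonal] at hp hq
    exact hnm (hp.symm.trans hq)
  have h2 : (∑ n ∈ Finset.range N, a n) * ∑ n ∈ Finset.range N, b n =
      ∑ p ∈ Finset.range N ×ˢ Finset.range N, a p.1 * b p.2 := by
    rw [Finset.sum_mul_sum, Finset.sum_product]
  rw [h1, h2]
  apply Finset.sum_le_sum_of_subset_of_nonneg
  · intro p hp
    rw [Finset.mem_biUnion] at hp
    obtain ⟨n, hn, hp⟩ := hp
    rw [Finset.HasAntidiagonal.mem_antidiagonal] at hp
    rw [Finset.mem_range] at hn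
    rw [Finset.mem_product, Finset.mem_range, Finset.mem_range]
    omega
  · intro p _ _
    exact mul_nonneg (ha _) (hb _)

private noncomputable def cvgS (f : PowerSeries ℝ) (y : ℝ) (N : ℕ) : ℝ :=
  ∑ n ∈ Finset.range N, coeff n f * y ^ n

private theorem cvgS_add (f g : PowerSeries ℝ) (y : ℝ) (N : ℕ) : cvgS (f + g) y N = cvgS f y N + cvgS g y N := by
  unfold cvgS
  rw [← Finset.sum_add_distrib]
  refine Finset.sum_congr rfl fun n _ => ?_
  rw [map_add, add_mul]

private theorem cvgS_one {y : ℝ} (N : ℕ) : cvgS 1 y N ≤ 1 := by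
  unfold cvgS
  rcases N with _ | N
  · rw [Finset.range_zero, Finset.sum_empty]
    exact zero_le_one
  · rw [Finset.sum_range_succ']
    have h1 : ∑ n ∈ Finset.range N, coeff (n + 1) (1 : PowerSeries ℝ) * y ^ (n + 1) = 0 := by
      refine Finset.sum_eq_zero fun n _ => ?_
      rw [PowerSeries.coeff_one, if_neg (Nat.succ_ne_zero n), zero_mul]
    rw [h1, PowerSeries.coeff_one, if_pos rfl]
    simp

private theorem cvgS_mul {f g : PowerSeries ℝ} (hf : ∀ n, 0 ≤ coeff n f) (hg : ∀ n, 0 ≤ coeff n g) {y : ℝ}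
    (hy : 0 ≤ y) (N : ℕ) : cvgS (f * g) y N ≤ cvgS f y N * cvgS g y N := by
  have h := cvg_prod (fun n => coeff n f * y ^ n) (fun n => coeff n g * y ^ n)
    (fun n => mul_nonneg (hf n) (pow_nonneg hy n)) (fun n => mul_nonneg (hg n) (pow_nonneg hy n)) N
  refine le_trans (le_of_eq ?_) h
  unfold cvgS
  refine Finset.sum_congr rfl fun n _ => ?_
  rw [PowerSeries.coeff_mul, Finset.sum_mul]
  refine Finset.sum_congr rfl fun p hp => ?_
  rw [Finset.HasAntidiagonal.mem_antidiagonal] at hp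
  rw [← hp, pow_add]
  ring

private theorem cvgS_nonneg {f : PowerSeries ℝ} (hf : ∀ n, 0 ≤ coeff n f) {y : ℝ} (hy : 0 ≤ y) (N : ℕ) :
    0 ≤ cvgS f y N :=
  Finset.sum_nonneg fun n _ => mul_nonneg (hf n) (pow_nonneg hy n)

private theorem cvg_inv {f A : PowerSeries ℝ} (h0 : constantCoeff f = 0) (hf : ∀ n, 0 ≤ coeff n f)
    (h : A = 1 + f * A) (n : ℕ) : 0 ≤ coeff n A := by
  induction n using Nat.strong_induction_on with
  | _ n ih =>
    rw [h, map_add, PowerSeries.coeff_mul]
    apply add_nonneg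
    · rw [PowerSeries.coeff_one]
      split_ifs <;> norm_num
    · apply Finset.sum_nonneg
      intro p hp
      rw [Finset.HasAntidiagonal.mem_antidiagonal] at hp
      rcases Nat.eq_zero_or_pos p.1 with h1 | h1
      · rw [h1, coeff_zero_eq_constantCoeff_apply, h0, zero_mul]
      · exact mul_nonneg (hf _) (ih p.2 (by omega))

private theorem cvg_AB : ∃ A B : PowerSeries ℝ, A = 1 + us * A ∧ B = 1 + (us + us) * B ∧
    us = (A * B + A * B) * X := by
  have h1 : constantCoeff (1 - us : PowerSeries ℝ) ≠ 0 := by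
    rw [map_sub, map_one, us_const, sub_zero]
    exact one_ne_zero
  have h2 : constantCoeff (1 - 2 * us : PowerSeries ℝ) ≠ 0 := by
    rw [map_sub, map_one, map_mul, us_const, mul_zero, sub_zero]
    exact one_ne_zero
  have h3 := PowerSeries.mul_inv_cancel _ h1
  have h4 := PowerSeries.mul_inv_cancel _ h2
  refine ⟨(1 - us)⁻¹, (1 - 2 * us)⁻¹, ?_, ?_, ?_⟩
  · linear_combination h3
  · linear_combination h4
  · linear_combination (-(us * (1 - 2 * us) * (1 - 2 * us)⁻¹)) * h3 - us * h4 + (1 - us)⁻¹ * (1 - 2 * us)⁻¹ * us_eq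

theorem us_partial (hx : 0 < x) (N : ℕ) :
    ∑ n ∈ Finset.range N, coeff n us * yy x ^ n ≤ uu x := by
  obtain ⟨A, B, hA, hB, hus⟩ := cvg_AB
  have hu0 := uu_pos x
  have hu1 := uu_lt x
  have hy := (yy_pos x).le
  have hus2 : ∀ n, 0 ≤ coeff n (us + us) := by
    intro n
    rw [map_add]
    have := us_nonneg n
    linarith
  have hA0 : ∀ n, 0 ≤ coeff n A := cvg_inv us_const us_nonneg hA
  have hB0 : ∀ n, 0 ≤ coeff n B := cvg_inv (by rw [map_add, us_const, add_zero]) hus2 hB
  show cvgS us (yy x) N ≤ uu x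
  induction N with
  | zero =>
    unfold cvgS
    rw [Finset.range_zero, Finset.sum_empty]
    exact hu0.le
  | succ N ih =>
    have a1 : cvgS A (yy x) N ≤ 1 + cvgS us (yy x) N * cvgS A (yy x) N := by
      have h1 := cvgS_mul us_nonneg hA0 hy N
      have h2 := cvgS_one (y := yy x) N
      calc cvgS A (yy x) N = cvgS (1 + us * A) (yy x) N := by rw [← hA]
        _ ≤ _ := by rw [cvgS_add]; linarith
    have b1 : cvgS B (yy x) N ≤ 1 + (2 * cvgS us (yy x) N) * cvgS B (yy x) N := by
      have h1 := cvgS_mul hus2 hB0 hy N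
      have h2 := cvgS_one (y := yy x) N
      have h3 := cvgS_add us us (yy x) N
      rw [h3, ← two_mul (cvgS us (yy x) N)] at h1
      calc cvgS B (yy x) N = cvgS (1 + (us + us) * B) (yy x) N := by rw [← hB]
        _ ≤ _ := by rw [cvgS_add]; linarith
    have a0 := cvgS_nonneg hA0 hy N
    have b0 := cvgS_nonneg hB0 hy N
    have s0 := cvgS_nonneg us_nonneg hy N
    have a2 : (1 - uu x) * cvgS A (yy x) N ≤ 1 := by
      have := mul_le_mul_of_nonneg_right ih a0
      linarith
    have b2 : (1 - 2 * uu x) * cvgS B (yy x) N ≤ 1 := by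
      have := mul_le_mul_of_nonneg_right ih b0
      linarith
    have c1 : cvgS us (yy x) (N + 1) = yy x * (2 * cvgS (A * B) (yy x) N) := by
      have h1 : ∀ n, coeff (n + 1) us = 2 * coeff n (A * B) := by
        intro n
        have h2 : coeff (n + 1) us = coeff (n + 1) ((A * B + A * B) * X) := by rw [← hus]
        rw [h2, PowerSeries.coeff_succ_mul_X, map_add]
        ring
      unfold cvgS
      rw [Finset.sum_range_succ', coeff_zero_eq_constantCoeff_apply, us_const, zero_mul, add_zero,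
        Finset.mul_sum, Finset.mul_sum]
      refine Finset.sum_congr rfl fun n _ => ?_
      rw [h1, pow_succ]
      ring
    have c2 := cvgS_mul hA0 hB0 hy N
    have c3 : cvgS us (yy x) (N + 1) ≤ yy x * (2 * (cvgS A (yy x) N * cvgS B (yy x) N)) := by
      rw [c1]
      apply mul_le_mul_of_nonneg_left _ hy
      linarith
    refine c3.trans ?_
    have c4 : yy x * (2 * (cvgS A (yy x) N * cvgS B (yy x) N)) =
        uu x * (((1 - uu x) * cvgS A (yy x) N) * ((1 - 2 * uu x) * cvgS B (yy x) N)) := by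
      rw [yy_eq]
      ring
    rw [c4]
    have c5 : ((1 - uu x) * cvgS A (yy x) N) * ((1 - 2 * uu x) * cvgS B (yy x) N) ≤ 1 * 1 := by
      apply mul_le_mul a2 b2 _ zero_le_one
      exact mul_nonneg (by linarith) b0
    calc _ ≤ uu x * (1 * 1) := mul_le_mul_of_nonneg_left c5 hu0.le
      _ = uu x := by ring

private def cvgE (f : PowerSeries ℝ) (y v : ℝ) : Prop := HasSum (fun n => coeff n f * y ^ n) v

private theorem cvgE_add {f g : PowerSeries ℝ} {y v w : ℝ} (hf : cvgE f y v) (hg : cvgE g y w) :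
    cvgE (f + g) y (v + w) := by
  have h : HasSum (fun n => coeff n f * y ^ n + coeff n g * y ^ n) (v + w) := HasSum.add hf hg
  show HasSum (fun n => coeff n (f + g) * y ^ n) (v + w)
  convert h using 2 with n
  rw [map_add, add_mul]

private theorem cvgE_mul {f g : PowerSeries ℝ} {y v w : ℝ} (hf : cvgE f y v) (hg : cvgE g y w) :
    cvgE (f * g) y (v * w) := by
  have h1 : Summable (fun n => ‖coeff n f * y ^ n‖) := hf.summable.norm
  have h2 : Summable (fun n => ‖coeff n g * y ^ n‖) := hg.summable.norm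
  have h3 := summable_norm_sum_mul_antidiagonal_of_summable_norm h1 h2
  have h4 := tsum_mul_tsum_eq_tsum_sum_antidiagonal_of_summable_norm h1 h2
  have e : ∀ n, ∑ kl ∈ Finset.HasAntidiagonal.antidiagonal n, (coeff kl.1 f * y ^ kl.1) * (coeff kl.2 g * y ^ kl.2) =
      coeff n (f * g) * y ^ n := by
    intro n
    rw [PowerSeries.coeff_mul, Finset.sum_mul]
    refine Finset.sum_congr rfl fun p hp => ?_
    rw [Finset.HasAntidiagonal.mem_antidiagonal] at hp
    rw [← hp, pow_add]
    ring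
  simp only [e] at h3 h4
  have h5 : (∑' n, coeff n f * y ^ n) = v := hf.tsum_eq
  have h6 : (∑' n, coeff n g * y ^ n) = w := hg.tsum_eq
  rw [h5, h6] at h4
  rw [h4]
  exact h3.of_norm.hasSum

private theorem cvgE_X (y : ℝ) : cvgE X y y := by
  have h : HasSum (fun n => coeff n (X : PowerSeries ℝ) * y ^ n) (coeff 1 (X : PowerSeries ℝ) * y ^ 1) := by
    apply hasSum_single 1
    intro n hn
    rw [PowerSeries.coeff_X, if_neg hn, zero_mul]
  rw [PowerSeries.coeff_one_X, one_mul, pow_one] at h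
  exact h

theorem us_sum (hx : 0 < x) : HasSum (fun n => coeff n us * yy x ^ n) (uu x) := by
  have hu0 := uu_pos x
  have hu1 := uu_lt x
  have hy := (yy_pos x).le
  have hnn : ∀ n, 0 ≤ coeff n us * yy x ^ n := fun n => mul_nonneg (us_nonneg n) (pow_nonneg hy n)
  have hsm : Summable (fun n => coeff n us * yy x ^ n) := summable_of_sum_range_le hnn (us_partial hx)
  have hle : ∑' n, coeff n us * yy x ^ n ≤ uu x := Real.tsum_le_of_sum_range_le hnn (us_partial hx)
  have hS0 : 0 ≤ ∑' n, coeff n us * yy x ^ n := tsum_nonneg hnn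
  have hE : cvgE us (yy x) (∑' n, coeff n us * yy x ^ n) := hsm.hasSum
  have goal1 : cvgE us (yy x) (uu x) := by
    generalize (∑' n, coeff n us * yy x ^ n) = S at hle hS0 hE
    have h1 : us + (us * us * us + us * us * us) = (X + X) + (us * us + us * us + us * us) := by
      linear_combination us_eq
    have h2 := cvgE_add hE (cvgE_add (cvgE_mul (cvgE_mul hE hE) hE) (cvgE_mul (cvgE_mul hE hE) hE))
    rw [h1] at h2
    have h3 := cvgE_add (cvgE_add (cvgE_X (yy x)) (cvgE_X (yy x)))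
      (cvgE_add (cvgE_add (cvgE_mul hE hE) (cvgE_mul hE hE)) (cvgE_mul hE hE))
    have h4 := HasSum.unique h2 h3
    have h5 := yy_eq x
    have h6 := dr_sq' x
    have h7 : 0 < dr x ^ 2 := pow_pos (dr_pos hx) 2
    rw [h6] at h7
    have h8 : (uu x - S) * (1 - 3 * uu x - 3 * S + 2 * (uu x ^ 2 + uu x * S + S ^ 2)) = 0 := by
      linear_combination (-1) * h4 - 2 * h5
    have h9 : 0 < 1 - 3 * uu x - 3 * S + 2 * (uu x ^ 2 + uu x * S + S ^ 2) := by
      have : 0 ≤ (uu x - S) * (3 - 4 * uu x - 2 * S) := mul_nonneg (by linarith) (by linarith)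
      nlinarith
    have h10 : uu x - S = 0 := by
      rcases mul_eq_zero.1 h8 with h | h
      · exact h
      · exact absurd h h9.ne'
    have h11 : uu x = S := by linarith
    rw [h11]
    exact hE
  exact goal1

theorem WW_sum (hx : 0 < x) : HasSum (fun n => coeff n WW * yy x ^ n)
    (uu x * (1 - 3 * uu x) / (2 * (1 - 2 * uu x))) := by
  have hu0 := uu_pos x
  have hu1 := uu_lt x
  have hy := (yy_pos x).le
  have hW : ∀ n, 0 ≤ coeff n WW := by
    intro n
    unfold WW
    rw [PowerSeries.coeff_mk]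
    split_ifs with h
    · exact le_rfl
    · have hn : 1 ≤ n := Nat.one_le_iff_ne_zero.2 h
      have h1 := W_TT n hn
      have h2 := SYS.A.TT_nonneg n 0
      have h3 : (0 : ℝ) < 3 * (n : ℝ) - 1 := by
        have : (1 : ℝ) ≤ n := by exact_mod_cast hn
        linarith
      rw [← h1] at h2
      exact nonneg_of_mul_nonneg_right h2 h3
  have hid : WW + WW + (us * us + us * us + us * us) = us + (us * WW + us * WW + (us * WW + us * WW)) := by
    linear_combination WW_us
  have hsq : ∀ n, 0 ≤ coeff n (us * us) := by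
    intro n
    rw [PowerSeries.coeff_mul]
    exact Finset.sum_nonneg fun p _ => mul_nonneg (us_nonneg _) (us_nonneg _)
  have hnn : ∀ n, 0 ≤ coeff n WW * yy x ^ n := fun n => mul_nonneg (hW n) (pow_nonneg hy n)
  have hbd : ∀ N, ∑ n ∈ Finset.range N, coeff n WW * yy x ^ n ≤ uu x / (2 * (1 - 2 * uu x)) := by
    intro N
    have h1 : cvgS (WW + WW + (us * us + us * us + us * us)) (yy x) N =
        cvgS (us + (us * WW + us * WW + (us * WW + us * WW))) (yy x) N := by rw [hid]
    simp only [cvgS_add] at h1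
    have h2 := cvgS_nonneg hsq hy N
    have h3 := cvgS_mul us_nonneg hW hy N
    have h4 : cvgS us (yy x) N ≤ uu x := us_partial hx N
    have h5 := cvgS_nonneg hW hy N
    have h6 := mul_le_mul_of_nonneg_right h4 h5
    show cvgS WW (yy x) N ≤ _
    rw [le_div_iff₀ (by linarith)]
    linarith
  have hsm : Summable (fun n => coeff n WW * yy x ^ n) := summable_of_sum_range_le hnn hbd
  have hE : cvgE WW (yy x) (∑' n, coeff n WW * yy x ^ n) := hsm.hasSum
  have hU : cvgE us (yy x) (uu x) := us_sum hx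
  have goal1 : cvgE WW (yy x) (uu x * (1 - 3 * uu x) / (2 * (1 - 2 * uu x))) := by
    generalize (∑' n, coeff n WW * yy x ^ n) = T at hE
    have h1 := cvgE_add (cvgE_add hE hE) (cvgE_add (cvgE_add (cvgE_mul hU hU) (cvgE_mul hU hU)) (cvgE_mul hU hU))
    rw [hid] at h1
    have h2 := cvgE_add hU (cvgE_add (cvgE_add (cvgE_mul hU hE) (cvgE_mul hU hE))
      (cvgE_add (cvgE_mul hU hE) (cvgE_mul hU hE)))
    have h3 := HasSum.unique h1 h2
    have h4 : T = uu x * (1 - 3 * uu x) / (2 * (1 - 2 * uu x)) := by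
      rw [eq_div_iff (by linarith : 2 * (1 - 2 * uu x) ≠ 0)]
      linear_combination h3
    rw [← h4]
    exact hE
  exact goal1

end SYS.Num
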