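import Pool.Agent.SYS.BD.MgO
import Pool.Agent.SYS.A.GJT

/-!
# SYS-PL-For: formal planar series

`GG = ∑ T(m-1, 0) X^m`, `WW = ∑_{m ≥ 1} W 1 (2m - 1) X^m`. The series satisfy algebraic equations, which follow from the recursion by differentiation.
-/

namespace SYS.Num

open PowerSeries

noncomputable def GG : PowerSeries ℝ := PowerSeries.mk fun m => SYS.A.TT m 0

noncomputable def WW : PowerSeries ℝ := PowerSeries.mk fun m => if m = 0 then 0 else W 1 (2 * m - 1)

noncomputable def us : PowerSeries ℝ := C (1 / 2 : ℝ) - C (1 / 4 : ℝ) * GG⁻¹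

private theorem for_D (f g : PowerSeries ℝ) :
    derivative ℝ (f * g) = f * derivative ℝ g + derivative ℝ f * g := by
  rw [Derivation.leibniz, smul_eq_mul, smul_eq_mul, mul_comm g]

private theorem for_DC (f : PowerSeries ℝ) (n : ℕ) [n.AtLeastTwo] :
    derivative ℝ (OfNat.ofNat n * f) = OfNat.ofNat n * derivative ℝ f := by
  have h : (OfNat.ofNat n : PowerSeries ℝ) = ((n : ℕ) : PowerSeries ℝ) := rfl
  rw [for_D, h, Derivation.map_natCast, zero_mul, add_zero]

private theorem for_c (n m : ℕ) [n.AtLeastTwo] (f : PowerSeries ℝ) :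
    coeff m (OfNat.ofNat n * f) = OfNat.ofNat n * coeff m f := by
  have h : (OfNat.ofNat n : PowerSeries ℝ) = C ((n : ℕ) : ℝ) := by
    rw [map_natCast]
    rfl
  rw [h, coeff_C_mul]
  rfl

private theorem for_XD (f : PowerSeries ℝ) (n : ℕ) :
    coeff n (X * derivative ℝ f) = n * coeff n f := by
  cases n with
  | zero => rw [coeff_zero_X_mul, Nat.cast_zero, zero_mul]
  | succ n =>
    rw [coeff_succ_X_mul, coeff_derivative, mul_comm]
    push_cast
    ring

theorem GG_der : derivative ℝ GG = 24 * X * GG * derivative ℝ GG + 8 * GG ^ 2 := by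
  have h1 : (24 * X * GG * derivative ℝ GG + 8 * GG ^ 2 : PowerSeries ℝ) =
      12 * (X * derivative ℝ (GG * GG)) + 8 * (GG * GG) := by
    rw [for_D]
    ring
  rw [h1]
  ext n
  rw [map_add, for_c, for_c, for_XD, coeff_derivative, coeff_mul]
  have h2 := SYS.A.gj n 0
  simp only [if_true, mul_zero, zero_add, Finset.Nat.antidiagonal_zero, Finset.sum_singleton] at h2
  unfold GG
  simp only [coeff_mk]
  rw [mul_comm, h2]
  ring

theorem GG_eq : 4 * GG ^ 2 - 64 * X * GG ^ 3 = 1 := by
  apply derivative.ext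
  · have h1 : (4 * GG ^ 2 - 64 * X * GG ^ 3 : PowerSeries ℝ) =
        4 * (GG * GG) - 64 * (X * (GG * (GG * GG))) := by ring
    rw [h1, map_sub, for_DC, for_DC, for_D, for_D, for_D, for_D, derivative_X, derivative_one]
    have h2 := GG_der
    linear_combination (8 * GG) * h2
  · have h3 : constantCoeff GG = 1 / 2 := by
      unfold GG
      rw [← coeff_zero_eq_constantCoeff_apply, coeff_mk]
      simp [SYS.A.TT]
    simp only [map_sub, map_mul, map_pow, h3, constantCoeff_X, map_one, map_ofNat]
    norm_num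

theorem W_TT (m : ℕ) (hm : 1 ≤ m) : (3 * (m : ℝ) - 1) * W 1 (2 * m - 1) = SYS.A.TT m 0 := by
  rw [tutW_one, if_neg (by omega)]
  have h1 := muG_two 0 (2 * m - 1 - 1) 0
  have h2 : W 2 (2 * m - 1 - 1) = muG (2 ::ₘ 0) (2 * m - 1 - 1) 0 := rfl
  rw [h2, h1]
  obtain ⟨k, rfl⟩ : ∃ k, m = k + 1 := ⟨m - 1, by omega⟩
  have h3 : 2 * (k + 1) - 1 - 1 = 2 * k := by omega
  rw [h3]
  cases k with
  | zero =>
    rw [if_pos ⟨rfl, by omega, rfl⟩]
    simp [SYS.A.TT, muG_zero_zero]
    norm_num
  | succ k =>
    rw [if_neg (by omega), muG_nu (k + 1) 0 (by omega)]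
    show _ = (3 * ((k : ℝ) + 1) + 2) * (6 * ((k + 1 : ℕ) : ℝ) * SST.nu (k + 1) 0)
    rw [Multiset.sum_zero]
    push_cast
    ring

private theorem for_G0 : constantCoeff GG = 1 / 2 := by
  unfold GG
  rw [← coeff_zero_eq_constantCoeff_apply, coeff_mk]
  simp [SYS.A.TT]

theorem us_const : constantCoeff us = 0 := by
  unfold us
  simp only [map_sub, map_mul, constantCoeff_C, constantCoeff_inv, for_G0]
  norm_num

private theorem for_inv : GG * GG⁻¹ = 1 := by
  apply PowerSeries.mul_inv_cancel
  rw [for_G0]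
  norm_num

private theorem for_a : (4 : PowerSeries ℝ) * C (1 / 4 : ℝ) = 1 := by
  have h : (4 : PowerSeries ℝ) = C (4 : ℝ) := by
    rw [map_ofNat]
  rw [h, ← map_mul]
  norm_num

private theorem for_b : C (1 / 2 : ℝ) = (2 : PowerSeries ℝ) * C (1 / 4 : ℝ) := by
  have h : (2 : PowerSeries ℝ) = C (2 : ℝ) := by
    rw [map_ofNat]
  rw [h, ← map_mul]
  norm_num

private theorem for_u : 2 * (1 - 2 * us) * GG = 1 := by
  unfold us
  rw [for_b]
  have h1 := for_inv
  have h2 := for_a
  linear_combination 4 * C (1 / 4 : ℝ) * h1 + (1 - 2 * GG) * h2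

private theorem for_four : (4 : PowerSeries ℝ) ≠ 0 := by
  intro h
  have h1 := for_a
  rw [h, zero_mul] at h1
  exact zero_ne_one h1

theorem us_eq : us * (1 - us) * (1 - 2 * us) = 2 * X := by
  have e0 := for_u
  have e1 := GG_eq
  apply mul_left_cancel₀ for_four
  have h : (1 - 2 * us) - 8 * X = (1 - 2 * us) ^ 3 := by
    linear_combination (1 - 2 * us) ^ 3 * e1 - (1 - 2 * us) * (2 * (1 - 2 * us) * GG + 1) * e0 +
      8 * X * ((2 * (1 - 2 * us) * GG) ^ 2 + 2 * (1 - 2 * us) * GG + 1) * e0
  linear_combination h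

private theorem for_q : us = 4 * (X * GG) + us * us := by
  have e0 := for_u
  have e1 := us_eq
  linear_combination (-(us * (1 - us))) * e0 + 2 * GG * e1

theorem us_nonneg (n : ℕ) : 0 ≤ coeff n us := by
  induction n using Nat.strong_induction_on with
  | _ n ih =>
    have h0 : coeff 0 us = 0 := by
      rw [coeff_zero_eq_constantCoeff_apply, us_const]
    have h1 : coeff n us = 4 * coeff n (X * GG) + coeff n (us * us) := by
      have := congrArg (coeff n) for_q
      rwa [map_add, for_c] at this
    rw [h1]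
    have h2 : 0 ≤ coeff n (X * GG) := by
      cases n with
      | zero => rw [coeff_zero_X_mul]
      | succ n =>
        rw [coeff_succ_X_mul]
        unfold GG
        rw [coeff_mk]
        exact SYS.A.TT_nonneg n 0
    have h3 : 0 ≤ coeff n (us * us) := by
      rw [coeff_mul]
      apply Finset.sum_nonneg
      rintro ⟨i, j⟩ hij
      rw [Finset.HasAntidiagonal.mem_antidiagonal] at hij
      simp only at hij ⊢
      by_cases hi : i = 0
      · rw [hi, h0, zero_mul]
      · by_cases hj : j = 0
        · rw [hj, h0, mul_zero]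
        · exact mul_nonneg (ih i (by omega)) (ih j (by omega))
    linarith

private theorem for_R : 3 * (X * derivative ℝ ((us - 3 * (us * us)) * GG)) - (us - 3 * (us * us)) * GG =
    GG - C (1 / 2 : ℝ) := by
  have e0 := for_u
  have e1 := us_eq
  have d0 : 2 * ((1 - 2 * us) * derivative ℝ GG - 2 * derivative ℝ us * GG) = 0 := by
    have h1 : (2 * ((1 - 2 * us) * GG) : PowerSeries ℝ) = 1 := by
      linear_combination e0
    have h2 := congrArg (derivative ℝ) h1
    rw [for_DC, for_D, map_sub, for_DC, derivative_one] at h2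
    linear_combination h2
  have d1 : derivative ℝ us * (1 - 6 * us + 6 * us ^ 2) = 2 := by
    have h1 : (us * ((1 - us) * (1 - 2 * us)) : PowerSeries ℝ) = 2 * X := by
      rw [← e1]
      ring
    have h2 := congrArg (derivative ℝ) h1
    rw [for_D, for_D, map_sub, map_sub, for_DC, for_DC, derivative_one, derivative_X] at h2
    linear_combination h2
  have dR : derivative ℝ ((us - 3 * (us * us)) * GG) = 4 * GG ^ 2 := by
    rw [for_D, map_sub, for_DC, for_D]
    linear_combination (-((us - 3 * (us * us)) * derivative ℝ GG +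
      (derivative ℝ us - 3 * (us * derivative ℝ us + derivative ℝ us * us)) * GG)) * e0 +
      GG * (us - 3 * us ^ 2) * d0 + 2 * GG ^ 2 * d1
  rw [dR, for_b]
  have ha := for_a
  linear_combination (-(6 * GG ^ 2)) * e1 + (3 * us * (1 - us) * GG) * e0 - (2 * C (1 / 4 : ℝ)) * e0 +
    ((1 - 2 * us) * GG) * ha

theorem WW_us : 2 * (1 - 2 * us) * WW = us * (1 - 3 * us) := by
  have h1 : WW = (us - 3 * (us * us)) * GG := by
    ext n
    have h2 := congrArg (coeff n) for_R
    rw [map_sub, for_c, for_XD, map_sub] at h2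
    generalize coeff n ((us - 3 * (us * us)) * GG) = r at *
    cases n with
    | zero =>
      unfold WW
      rw [coeff_mk, if_pos rfl]
      rw [coeff_zero_C, coeff_zero_eq_constantCoeff_apply, for_G0] at h2
      simp only [Nat.cast_zero, zero_mul, mul_zero, sub_self] at h2
      linarith
    | succ n =>
      have h3 := W_TT (n + 1) (by omega)
      unfold WW
      rw [coeff_mk, if_neg (by omega)]
      rw [coeff_C, if_neg (by omega)] at h2
      unfold GG at h2
      rw [coeff_mk, ← h3] at h2
      have h4 : (3 * ((n + 1 : ℕ) : ℝ) - 1) ≠ 0 := by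
        push_cast
        have : (0 : ℝ) ≤ n := Nat.cast_nonneg n
        intro h5
        linarith
      apply mul_left_cancel₀ h4
      linarith
  rw [h1]
  have e0 := for_u
  linear_combination (us - 3 * us ^ 2) * e0

end SYS.Num
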