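import Pool.Agent.SYS.PL.Cls

/-!
# SYS-PL-LawA: mass and mean of the steps

PROOF. `A = AA x`, `y = yy x`. `hasSum_wk`: the series `∑ w_k A^{-k}`, `∑ k w_k A^{-k}` converge absolutely (`wk_le`, `BB_lt`); evaluate the formal identity `cls` at `ξ = 1/A`: `2 y A^{-3} w(1/A) = 1/A - 1` since the factor `1 - A ξ` vanishes. `hasSum_kwk`: evaluate the derivative of `cls` times `X`:
`2 y ∑ (k+3) w_k ξ^{k+3} = ξ + (-A ξ) S(ξ) + (1 - A ξ)(..)` at `ξ = 1/A`: `2 y ∑ (k+3) w_k A^{-k-3} = 1/A - S(1/A)`, and `S(1/A) = d/A`: `S(1/A)² = (6A² - 6A + 1)/A² = d²/A²` (`dr_sq`), positive because `ξ ↦ S(ξ)` is continuous on `[0, 1/A]`, `S(0) = 1`, and `S(ξ)² = (1 - BB ξ)(1 - BC ξ) > 0`.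
So `∑ (k+3) 2 y w_k A^{-k-2} = 1 - d`, and `∑ (k + 2) 2 y w_k A^{-k-2} = (1 - d) - (1 - A) = A - d`. `mass`, `mean`: `qq x k a = y * (W k a y^((a+k)/2)) A^{-k-2}`, sum over `a` first (`HasSum.prod_fiberwise`/`summable_prod_of_nonneg`). `expm`: choose `x'` by `exists_near`, `δ > 0` with `y e^{2δ} ≤ yy x'` and `BB x' e^δ < A`;
`qq x k a e^{δ(k+a)} ≤ (y / A²) (W k a (yy x')^((a+k)/2)) (1/A)^k` (up to the factor `e^δ` if `a + k` is odd, where `W = 0`), sum over `a`: `wk x' k ≤ K (k+1) BB x'^k`.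
-/

namespace SYS.Num

open Real

variable {x : ℝ}

private theorem la_A (x : ℝ) : 0 < AA x := by
  have := AA_gt x
  linarith

private theorem la_W (k a : ℕ) : 0 ≤ W k a := by
  unfold W muG
  split_ifs
  · exact_mod_cast SYS.A.muP_nonneg _ _ _
  · exact le_refl 0

theorem qq_nonneg (x : ℝ) (k a : ℕ) : 0 ≤ qq x k a := by
  unfold qq
  exact div_nonneg (mul_nonneg (pow_nonneg (yy_pos x).le _) (la_W k a)) (pow_nonneg (la_A x).le _)

/-- the coefficients of `S` times `(k+1)` at `ξ = 1/A` are summable -/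
private theorem la_geo {b : ℝ} (hb : 0 < b) (hb1 : b < 1) (j : ℕ) :
    Summable fun n : ℕ => ((n : ℝ) + 1) ^ j * b ^ n := by
  have h := summable_pow_mul_geometric_of_norm_lt_one (R := ℝ) j (r := b)
    (by rw [Real.norm_eq_abs, abs_of_pos hb]; exact hb1)
  have h2 := (summable_nat_add_iff 1).2 h
  have h3 : (fun n : ℕ => ((n : ℝ) + 1) ^ j * b ^ n) = fun n : ℕ => b⁻¹ * (((n + 1 : ℕ) : ℝ) ^ j * b ^ (n + 1)) := by
    funext n
    push_cast
    rw [pow_succ]
    field_simp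
  rw [h3]
  exact h2.mul_left _

private theorem la_b (hx : 0 < x) : 0 < BB x / AA x ∧ BB x / AA x < 1 :=
  ⟨div_pos (BB_pos x) (la_A x), (div_lt_one (la_A x)).2 (BB_lt hx)⟩

private theorem la_sum (hx : 0 < x) {S : PowerSeries ℝ}
    (h3 : ∀ k, |PowerSeries.coeff k S| ≤ (k + 1) * BB x ^ k) {t : ℝ} (ht0 : 0 ≤ t) (ht : t ≤ 1 / AA x) (n : ℕ) :
    ‖PowerSeries.coeff n S * t ^ n‖ ≤ ((n : ℝ) + 1) ^ 1 * (BB x / AA x) ^ n := by
  rw [norm_mul, Real.norm_eq_abs, norm_pow, Real.norm_eq_abs, abs_of_nonneg ht0]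
  calc |PowerSeries.coeff n S| * t ^ n ≤ ((n + 1) * BB x ^ n) * (1 / AA x) ^ n :=
        mul_le_mul (h3 n) (pow_le_pow_left₀ ht0 ht n) (pow_nonneg ht0 n)
          (mul_nonneg (by positivity) (pow_nonneg (BB_pos x).le n))
    _ = _ := by
        rw [div_pow, div_pow]
        ring

/-- the value of `S` at `t` squares to the polynomial -/
private theorem la_sq (hx : 0 < x) {S : PowerSeries ℝ}
    (h2 : S ^ 2 = 1 - PowerSeries.C (2 * uu x) * PowerSeries.X -
      PowerSeries.C (uu x * (2 - 3 * uu x)) * PowerSeries.X ^ 2)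
    (h3 : ∀ k, |PowerSeries.coeff k S| ≤ (k + 1) * BB x ^ k) {t : ℝ} (ht0 : 0 ≤ t) (ht : t ≤ 1 / AA x) :
    (∑' n, PowerSeries.coeff n S * t ^ n) ^ 2 = 1 - 2 * uu x * t - uu x * (2 - 3 * uu x) * t ^ 2 := by
  have hs : Summable fun n => ‖PowerSeries.coeff n S * t ^ n‖ :=
    Summable.of_nonneg_of_le (fun _ => norm_nonneg _) (la_sum hx h3 ht0 ht) (la_geo (la_b hx).1 (la_b hx).2 1)
  rw [sq, tsum_mul_tsum_eq_tsum_sum_antidiagonal_of_summable_norm hs hs]
  have h4 : (fun n => ∑ kl ∈ Finset.HasAntidiagonal.antidiagonal n, PowerSeries.coeff kl.1 S * t ^ kl.1 *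
      (PowerSeries.coeff kl.2 S * t ^ kl.2)) = fun n => PowerSeries.coeff n (S ^ 2) * t ^ n := by
    funext n
    rw [sq, PowerSeries.coeff_mul, Finset.sum_mul]
    refine Finset.sum_congr rfl fun kl hkl => ?_
    rw [Finset.HasAntidiagonal.mem_antidiagonal] at hkl
    rw [← hkl, pow_add]
    ring
  rw [h4, h2]
  rw [tsum_eq_sum (s := Finset.range 3)]
  · simp only [Finset.sum_range_succ, Finset.sum_range_zero, map_sub, PowerSeries.coeff_C_mul, PowerSeries.coeff_X,
      PowerSeries.coeff_X_pow, PowerSeries.coeff_one]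
    norm_num
    ring
  · intro n hn
    rw [Finset.mem_range, not_lt] at hn
    simp only [map_sub, PowerSeries.coeff_C_mul, PowerSeries.coeff_X,
      PowerSeries.coeff_X_pow, PowerSeries.coeff_one]
    rw [if_neg (by omega), if_neg (by omega), if_neg (by omega)]
    simp

private theorem la_cont (hx : 0 < x) {S : PowerSeries ℝ}
    (h3 : ∀ k, |PowerSeries.coeff k S| ≤ (k + 1) * BB x ^ k) :
    ContinuousOn (fun t : ℝ => ∑' n, PowerSeries.coeff n S * t ^ n) (Set.Icc 0 (1 / AA x)) :=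
  continuousOn_tsum (fun n => by fun_prop) (la_geo (la_b hx).1 (la_b hx).2 1)
    (fun n t ht => la_sum hx h3 ht.1 ht.2 n)

private theorem la_val (hx : 0 < x) {S : PowerSeries ℝ} (h1 : PowerSeries.constantCoeff S = 1)
    (h2 : S ^ 2 = 1 - PowerSeries.C (2 * uu x) * PowerSeries.X -
      PowerSeries.C (uu x * (2 - 3 * uu x)) * PowerSeries.X ^ 2)
    (h3 : ∀ k, |PowerSeries.coeff k S| ≤ (k + 1) * BB x ^ k) :
    ∑' n, PowerSeries.coeff n S * (1 / AA x) ^ n = dr x / AA x := by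
  have hA := la_A x
  have hA1 : 0 ≤ 1 / AA x := by positivity
  have hsq := la_sq hx h2 h3 hA1 (le_refl _)
  have hpos : 0 < ∑' n, PowerSeries.coeff n S * (1 / AA x) ^ n := by
    by_contra hneg
    rw [not_lt] at hneg
    have h0 : (∑' n, PowerSeries.coeff n S * (0 : ℝ) ^ n) = 1 := by
      rw [tsum_eq_single 0]
      · rw [pow_zero, mul_one, PowerSeries.coeff_zero_eq_constantCoeff_apply, h1]
      · intro n hn
        rw [zero_pow hn, mul_zero]
    have hmem : (0 : ℝ) ∈ Set.Icc (∑' n, PowerSeries.coeff n S * (1 / AA x) ^ n)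
        (∑' n, PowerSeries.coeff n S * (0 : ℝ) ^ n) := ⟨hneg, by rw [h0]; norm_num⟩
    obtain ⟨t, ht, ht2⟩ := intermediate_value_Icc' hA1 (la_cont hx h3) hmem
    have hsq2 := la_sq hx h2 h3 ht.1 ht.2
    have ht3 : (∑' n, PowerSeries.coeff n S * t ^ n) = 0 := ht2
    rw [ht3] at hsq2
    have h5 : 1 - 2 * uu x * t - uu x * (2 - 3 * uu x) * t ^ 2 = (1 - BB x * t) * (1 - BC x * t) := by
      have e1 := BB_add x
      have e2 := BB_mul x
      linear_combination (-t) * (-e1) - t ^ 2 * (-(-e2)) + 0 * e1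
    rw [h5] at hsq2
    have h6 : BB x * t < 1 := by
      have h7 : BB x * t ≤ BB x * (1 / AA x) := mul_le_mul_of_nonneg_left ht.2 (BB_pos x).le
      have h8 := (la_b hx).2
      rw [mul_one_div] at h7
      linarith
    have h7 : BC x * t < 1 := by
      have h8 := BC_abs x
      have h9 : BC x * t ≤ BB x * t := mul_le_mul_of_nonneg_right (le_trans (le_abs_self _) h8.le) ht.1
      linarith
    have h8 : 0 < (1 - BB x * t) * (1 - BC x * t) := mul_pos (by linarith) (by linarith)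
    rw [← hsq2] at h8
    norm_num at h8
  have hd : 0 < dr x / AA x := div_pos (dr_pos hx) hA
  have h9 : (∑' n, PowerSeries.coeff n S * (1 / AA x) ^ n) ^ 2 = (dr x / AA x) ^ 2 := by
    rw [hsq, div_pow (dr x), dr_sq]
    have hu : uu x = 1 - AA x := rfl
    rw [hu]
    field_simp
    ring
  exact (pow_left_inj₀ hpos.le hd.le two_ne_zero).1 h9

/-- the coefficients of the closed form -/
private theorem la_coef (hx : 0 < x) {S : PowerSeries ℝ} (h1 : PowerSeries.constantCoeff S = 1)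
    (h2 : S ^ 2 = 1 - PowerSeries.C (2 * uu x) * PowerSeries.X -
      PowerSeries.C (uu x * (2 - 3 * uu x)) * PowerSeries.X ^ 2) (k : ℕ) :
    2 * yy x * wk x k = PowerSeries.coeff (k + 3) S - AA x * PowerSeries.coeff (k + 2) S := by
  have h := congrArg (PowerSeries.coeff (k + 3)) (cls hx h1 h2)
  rw [mul_assoc, PowerSeries.coeff_C_mul, mul_comm (PowerSeries.X ^ 3), PowerSeries.coeff_mul_X_pow] at h
  rw [Wx, PowerSeries.coeff_mk] at h
  rw [h, sub_mul, one_mul, map_add, map_sub, map_sub, mul_assoc, PowerSeries.coeff_C_mul,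
    PowerSeries.coeff_X, PowerSeries.coeff_one, if_neg (by omega), if_neg (by omega)]
  have : PowerSeries.coeff (k + 3) (PowerSeries.X * S) = PowerSeries.coeff (k + 2) S := by
    rw [show k + 3 = (k + 2) + 1 from rfl, PowerSeries.coeff_succ_X_mul]
  rw [this]
  ring

private theorem la_low (hx : 0 < x) {S : PowerSeries ℝ} (h1 : PowerSeries.constantCoeff S = 1)
    (h2 : S ^ 2 = 1 - PowerSeries.C (2 * uu x) * PowerSeries.X -
      PowerSeries.C (uu x * (2 - 3 * uu x)) * PowerSeries.X ^ 2) :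
    PowerSeries.coeff 0 S = 1 ∧ PowerSeries.coeff 1 S = AA x - 1 ∧
      PowerSeries.coeff 2 S = AA x * (AA x - 1) := by
  have e0 : PowerSeries.coeff 0 S = 1 := by
    rw [PowerSeries.coeff_zero_eq_constantCoeff_apply, h1]
  have hc := cls hx h1 h2
  have e1 : PowerSeries.coeff 1 S = AA x - 1 := by
    have h := congrArg (PowerSeries.coeff 1) hc
    rw [mul_assoc, PowerSeries.coeff_C_mul, mul_comm (PowerSeries.X ^ 3), PowerSeries.coeff_mul_X_pow',
      if_neg (by norm_num), mul_zero, sub_mul, one_mul, map_add, map_sub, map_sub, mul_assoc, PowerSeries.coeff_C_mul,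
      PowerSeries.coeff_X, PowerSeries.coeff_one, if_pos rfl, if_neg (by norm_num),
      show (1 : ℕ) = 0 + 1 from rfl, PowerSeries.coeff_succ_X_mul, e0] at h
    linarith
  refine ⟨e0, e1, ?_⟩
  have h := congrArg (PowerSeries.coeff 2) hc
  rw [mul_assoc, PowerSeries.coeff_C_mul, mul_comm (PowerSeries.X ^ 3), PowerSeries.coeff_mul_X_pow',
    if_neg (by norm_num), mul_zero, sub_mul, one_mul, map_add, map_sub, map_sub, mul_assoc, PowerSeries.coeff_C_mul,
    PowerSeries.coeff_X, PowerSeries.coeff_one, if_neg (by norm_num), if_neg (by norm_num),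
    show (2 : ℕ) = 1 + 1 from rfl, PowerSeries.coeff_succ_X_mul, e1] at h
  linarith

theorem hasSum_wk (hx : 0 < x) :
    HasSum (fun k : ℕ => 2 * yy x * wk x k / AA x ^ (k + 2)) (1 - AA x) := by
  obtain ⟨S, h1, h2, h3⟩ := exists_S x
  have hA := la_A x
  have hA1 : 0 ≤ 1 / AA x := by positivity
  obtain ⟨e0, e1, e2⟩ := la_low hx h1 h2
  have hs : Summable fun n => PowerSeries.coeff n S * (1 / AA x) ^ n :=
    Summable.of_norm_bounded (la_geo (la_b hx).1 (la_b hx).2 1) (la_sum hx h3 hA1 (le_refl _))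
  have hs0 := hs.hasSum
  have hs3 := (hasSum_nat_add_iff' 3).2 hs0
  have hs2 := (hasSum_nat_add_iff' 2).2 hs0
  have h4 := (hs3.sub hs2).mul_left (AA x)
  simp only [Finset.sum_range_succ, Finset.sum_range_zero, e0, e1, e2] at h4
  have h5 : (fun k : ℕ => 2 * yy x * wk x k / AA x ^ (k + 2)) = fun k : ℕ =>
      AA x * (PowerSeries.coeff (k + 3) S * (1 / AA x) ^ (k + 3) - PowerSeries.coeff (k + 2) S * (1 / AA x) ^ (k + 2)) := by
    funext k
    rw [la_coef hx h1 h2, pow_succ (1 / AA x) (k + 2), one_div, inv_pow]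
    field_simp
  rw [h5]
  refine (congrArg (HasSum _) ?_).mp h4
  field_simp
  ring

theorem hasSum_kwk (hx : 0 < x) :
    HasSum (fun k : ℕ => ((k : ℝ) + 2) * (2 * yy x * wk x k / AA x ^ (k + 2))) (AA x - dr x) := by
  obtain ⟨S, h1, h2, h3⟩ := exists_S x
  have hA := la_A x
  have hA1 : 0 ≤ 1 / AA x := by positivity
  obtain ⟨e0, e1, e2⟩ := la_low hx h1 h2
  have hs : Summable fun n => PowerSeries.coeff n S * (1 / AA x) ^ n :=
    Summable.of_norm_bounded (la_geo (la_b hx).1 (la_b hx).2 1) (la_sum hx h3 hA1 (le_refl _))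
  have ht : Summable fun n : ℕ => (n : ℝ) * (PowerSeries.coeff n S * (1 / AA x) ^ n) := by
    refine Summable.of_norm_bounded (la_geo (la_b hx).1 (la_b hx).2 2) ?_
    intro n
    rw [norm_mul, Real.norm_eq_abs, abs_of_nonneg (Nat.cast_nonneg n)]
    have h4 := la_sum hx h3 hA1 (le_refl _) n
    have h5 : (0 : ℝ) ≤ (BB x / AA x) ^ n := pow_nonneg (la_b hx).1.le n
    calc (n : ℝ) * ‖PowerSeries.coeff n S * (1 / AA x) ^ n‖ ≤ (n : ℝ) * (((n : ℝ) + 1) ^ 1 * (BB x / AA x) ^ n) :=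
          mul_le_mul_of_nonneg_left h4 (Nat.cast_nonneg n)
      _ ≤ ((n : ℝ) + 1) * (((n : ℝ) + 1) ^ 1 * (BB x / AA x) ^ n) :=
          mul_le_mul_of_nonneg_right (by linarith) (by positivity)
      _ = _ := by ring
  have hs0 := hs.hasSum
  have ht0 := ht.hasSum
  rw [la_val hx h1 h2 h3] at hs0
  have hs3 := (hasSum_nat_add_iff' 3).2 hs0
  have hs2 := (hasSum_nat_add_iff' 2).2 hs0
  have ht3 := (hasSum_nat_add_iff' 3).2 ht0
  have ht2 := (hasSum_nat_add_iff' 2).2 ht0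
  have h4 := (((ht3.sub hs3).sub ht2)).mul_left (AA x)
  simp only [Finset.sum_range_succ, Finset.sum_range_zero, e0, e1, e2] at h4
  have h5 : (fun k : ℕ => ((k : ℝ) + 2) * (2 * yy x * wk x k / AA x ^ (k + 2))) = fun k : ℕ =>
      AA x * ((((k + 3 : ℕ) : ℝ) * (PowerSeries.coeff (k + 3) S * (1 / AA x) ^ (k + 3)) -
        PowerSeries.coeff (k + 3) S * (1 / AA x) ^ (k + 3)) -
        ((k + 2 : ℕ) : ℝ) * (PowerSeries.coeff (k + 2) S * (1 / AA x) ^ (k + 2))) := by
    funext k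
    rw [la_coef hx h1 h2, pow_succ (1 / AA x) (k + 2), one_div, inv_pow]
    push_cast
    field_simp
    ring
  rw [h5]
  refine (congrArg (HasSum _) ?_).mp h4
  push_cast
  field_simp
  ring

private theorem la_fib (hx : 0 < x) (k : ℕ) :
    HasSum (fun a => qq x k a) ((2 * yy x * wk x k / AA x ^ (k + 2)) / 2) := by
  have h := ((summable_W hx k).hasSum).mul_left (yy x / AA x ^ (k + 2))
  have h2 : (fun a => yy x / AA x ^ (k + 2) * (W k a * yy x ^ ((a + k) / 2))) = fun a => qq x k a := by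
    funext a
    unfold qq
    rw [pow_add (yy x), pow_one]
    ring
  rw [h2] at h
  refine (congrArg (HasSum _) ?_).mp h
  show yy x / AA x ^ (k + 2) * wk x k = _
  ring

/-- Total mass: `A + 2 ∑ q = 1`. -/
theorem mass (hx : 0 < x) :
    HasSum (fun t : ℕ × ℕ => qq x t.1 t.2) ((1 - AA x) / 2) := by
  have h1 : ∀ k, HasSum (fun a => qq x k a) ((2 * yy x * wk x k / AA x ^ (k + 2)) / 2) := la_fib hx
  have h2 : HasSum (fun k => (2 * yy x * wk x k / AA x ^ (k + 2)) / 2) ((1 - AA x) / 2) := (hasSum_wk hx).div_const 2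
  have hsum : Summable (fun t : ℕ × ℕ => qq x t.1 t.2) := by
    rw [summable_prod_of_nonneg (fun t => qq_nonneg x t.1 t.2)]
    refine ⟨fun k => (h1 k).summable, ?_⟩
    have : (fun k => ∑' a, qq x k a) = fun k => (2 * yy x * wk x k / AA x ^ (k + 2)) / 2 := by
      funext k
      exact (h1 k).tsum_eq
    show Summable fun k => ∑' a, qq x k a
    rw [this]
    exact h2.summable
  have h3 := hsum.hasSum.prod_fiberwise h1
  rw [h2.unique h3]
  exact hsum.hasSum

/-- Mean: `A - 2 ∑ (k + 2) q = d`. -/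
theorem mean (hx : 0 < x) :
    HasSum (fun t : ℕ × ℕ => ((t.1 : ℝ) + 2) * qq x t.1 t.2) ((AA x - dr x) / 2) := by
  have h1 : ∀ k : ℕ, HasSum (fun a => ((k : ℝ) + 2) * qq x k a)
      (((k : ℝ) + 2) * ((2 * yy x * wk x k / AA x ^ (k + 2)) / 2)) := fun k => (la_fib hx k).mul_left _
  have h2 : HasSum (fun k : ℕ => ((k : ℝ) + 2) * ((2 * yy x * wk x k / AA x ^ (k + 2)) / 2)) ((AA x - dr x) / 2) := by
    have h4 := (hasSum_kwk hx).div_const 2
    have h5 : (fun k : ℕ => ((k : ℝ) + 2) * ((2 * yy x * wk x k / AA x ^ (k + 2)) / 2)) =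
        fun k : ℕ => ((k : ℝ) + 2) * (2 * yy x * wk x k / AA x ^ (k + 2)) / 2 := by
      funext k
      ring
    rw [h5]
    exact h4
  have hsum : Summable (fun t : ℕ × ℕ => ((t.1 : ℝ) + 2) * qq x t.1 t.2) := by
    rw [summable_prod_of_nonneg (fun t => mul_nonneg (by positivity) (qq_nonneg x t.1 t.2))]
    refine ⟨fun k => (h1 k).summable, ?_⟩
    have : (fun k : ℕ => ∑' a, ((k : ℝ) + 2) * qq x k a) =
        fun k : ℕ => ((k : ℝ) + 2) * ((2 * yy x * wk x k / AA x ^ (k + 2)) / 2) := by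
      funext k
      exact (h1 k).tsum_eq
    show Summable fun k : ℕ => ∑' a, ((k : ℝ) + 2) * qq x k a
    rw [this]
    exact h2.summable
  have h3 := hsum.hasSum.prod_fiberwise h1
  rw [h2.unique h3]
  exact hsum.hasSum

end SYS.Num
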