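import Pool.Agent.SYS.PL.Cvg

/-!
# SYS-PL-Wk: the disc functions `w_k(y)`

PROOF. `summable_W`: `k = 0`: one term. `k = 1`: `WW_sum` (`a = 2m - 1`, `(a + 1)/2 = m`, even `a` give `0`). `k ≥ 1`: `W (k+1) (a-1) ≤ W k a` (first term of `tutW`, `tutW_one`), and `(a - 1 + k + 1)/2 = (a + k)/2`, comparison. `wk_zero`, `wk_one`. `wk_two`: `tutW_one`. `wk_rec`: sum `tutW m a * y^((a + m + 2)/2)` over `a` (`hasSum` of
the Cauchy product, `(a + m + 2)/2 = 1 + (a₁ + x.1)/2 + (a₂ + x.2)/2` when both `a₁ + x.1`, `a₂ + x.2` are even, otherwise the term is `0`).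
-/

namespace SYS.Num

variable {x : ℝ}

/-- `w_k(y) = ∑_a W k a y^((a + k)/2)`. -/
noncomputable def wk (x : ℝ) (k : ℕ) : ℝ := ∑' a, W k a * yy x ^ ((a + k) / 2)

private noncomputable def ff (x : ℝ) (k a : ℕ) : ℝ := W k a * yy x ^ ((a + k) / 2)

private theorem ff_nn (x : ℝ) (k a : ℕ) : 0 ≤ ff x k a :=
  mul_nonneg (W_nonneg _ _) (pow_nonneg (yy_pos x).le _)

private theorem ff_one (hx : 0 < x) :
    HasSum (ff x 1) (uu x * (1 - 3 * uu x) / (2 * (1 - 2 * uu x))) := by
  have h := WW_sum hx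
  have hinj : Function.Injective (fun n : ℕ => 2 * n - 1) := by
    intro a b hab
    have hab' : 2 * a - 1 = 2 * b - 1 := hab
    omega
  rw [← hinj.hasSum_iff]
  · have h1 : (fun n => PowerSeries.coeff n WW * yy x ^ n) = ff x 1 ∘ fun n : ℕ => 2 * n - 1 := by
      funext n
      unfold WW ff
      rw [PowerSeries.coeff_mk, Function.comp_apply]
      rcases Nat.eq_zero_or_pos n with h0 | h0
      · rw [h0, if_pos rfl, zero_mul, W_odd (by decide), zero_mul]
      · rw [if_neg (by omega)]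
        congr 2
        omega
    rw [← h1]
    exact h
  · intro a ha
    unfold ff
    have h1 : ¬ Even (a + 1) := by
      intro h2
      apply ha
      obtain ⟨c, hc⟩ := h2
      exact ⟨c, by change 2 * c - 1 = a; omega⟩
    rw [W_odd h1, zero_mul]

private theorem ff_succ (x : ℝ) (k a : ℕ) : ff x (k + 2) a ≤ ff x (k + 1) (a + 1) := by
  unfold ff
  have h1 : (a + 1 + (k + 1)) / 2 = (a + (k + 2)) / 2 := by
    congr 1
    omega
  rw [h1]
  refine mul_le_mul_of_nonneg_right ?_ (pow_nonneg (yy_pos x).le _)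
  rcases Nat.eq_zero_or_pos k with h0 | h0
  · rw [h0]
    have h2 := tutW_one (a + 1)
    rw [if_neg (Nat.succ_ne_zero a), Nat.add_sub_cancel] at h2
    rw [zero_add, zero_add, h2]
  · obtain ⟨m, rfl⟩ : ∃ m, k = m + 1 := ⟨k - 1, by omega⟩
    have h2 := tutW m (a + 1)
    rw [if_neg (Nat.succ_ne_zero a), Nat.add_sub_cancel] at h2
    rw [h2]
    have h3 : 0 ≤ ∑ x ∈ Finset.HasAntidiagonal.antidiagonal m,
        ∑ y ∈ Finset.HasAntidiagonal.antidiagonal (a + 1), W x.1 y.1 * W x.2 y.2 :=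
      Finset.sum_nonneg fun _ _ => Finset.sum_nonneg fun _ _ => mul_nonneg (W_nonneg _ _) (W_nonneg _ _)
    have h4 : m + 1 + 2 = m + 3 := rfl
    rw [h4]
    linarith

private theorem ff_summable (hx : 0 < x) (k : ℕ) : Summable (ff x k) := by
  rcases Nat.eq_zero_or_pos k with h0 | h0
  · rw [h0]
    refine summable_of_ne_finset_zero (s := {0}) ?_
    intro a ha
    unfold ff
    rw [W_zero (by simpa using ha), zero_mul]
  · obtain ⟨m, rfl⟩ : ∃ m, k = m + 1 := ⟨k - 1, by omega⟩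
    clear h0
    induction m with
    | zero => exact (ff_one hx).summable
    | succ m ih =>
      refine Summable.of_nonneg_of_le (fun a => ff_nn x _ a) (fun a => ff_succ x m a) ?_
      exact (summable_nat_add_iff 1).mpr ih

theorem summable_W (hx : 0 < x) (k : ℕ) : Summable fun a => W k a * yy x ^ ((a + k) / 2) :=
  ff_summable hx k

theorem wk_nonneg (x : ℝ) (k : ℕ) : 0 ≤ wk x k :=
  tsum_nonneg fun a => ff_nn x k a

theorem wk_zero (x : ℝ) : wk x 0 = 1 := by
  unfold wk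
  rw [tsum_eq_single 0]
  · rw [W_zero_zero]
    simp
  · intro a ha
    rw [W_zero ha, zero_mul]

theorem wk_one (hx : 0 < x) : wk x 1 = uu x * (1 - 3 * uu x) / (2 * (1 - 2 * uu x)) :=
  (ff_one hx).tsum_eq

theorem wk_two (hx : 0 < x) : wk x 2 = wk x 1 := by
  have h1 : wk x 1 = ff x 1 0 + ∑' a, ff x 1 (a + 1) := (ff_summable hx 1).tsum_eq_zero_add
  have h2 : ff x 1 0 = 0 := by
    unfold ff
    rw [W_odd (by decide), zero_mul]
  rw [h1, h2, zero_add]
  refine tsum_congr fun a => ?_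
  unfold ff
  have h3 := tutW_one (a + 1)
  rw [if_neg (Nat.succ_ne_zero a), Nat.add_sub_cancel] at h3
  rw [h3]

private theorem ff_mul (x : ℝ) (m : ℕ) {t : ℕ × ℕ} (ht : t ∈ Finset.HasAntidiagonal.antidiagonal m)
    {a : ℕ} {s : ℕ × ℕ} (hs : s ∈ Finset.HasAntidiagonal.antidiagonal a) :
    W t.1 s.1 * W t.2 s.2 * yy x ^ ((a + (m + 2)) / 2) =
      yy x * (ff x t.1 s.1 * ff x t.2 s.2) := by
  rw [Finset.HasAntidiagonal.mem_antidiagonal] at ht hs
  unfold ff
  by_cases h1 : Even (s.1 + t.1)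
  · by_cases h2 : Even (s.2 + t.2)
    · obtain ⟨c, hc⟩ := h1
      obtain ⟨d, hd⟩ := h2
      have e1 : (a + (m + 2)) / 2 = c + d + 1 := by omega
      have e2 : (s.1 + t.1) / 2 = c := by omega
      have e3 : (s.2 + t.2) / 2 = d := by omega
      rw [e1, e2, e3]
      ring
    · rw [W_odd h2]
      ring
  · rw [W_odd h1]
    ring

private theorem ff_conv (hx : 0 < x) (m : ℕ) {t : ℕ × ℕ}
    (ht : t ∈ Finset.HasAntidiagonal.antidiagonal m) :
    HasSum (fun a => (∑ s ∈ Finset.HasAntidiagonal.antidiagonal a, W t.1 s.1 * W t.2 s.2) *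
      yy x ^ ((a + (m + 2)) / 2)) (yy x * (wk x t.1 * wk x t.2)) := by
  have n1 : Summable fun a => ‖ff x t.1 a‖ := (ff_summable hx t.1).norm
  have n2 : Summable fun a => ‖ff x t.2 a‖ := (ff_summable hx t.2).norm
  have h1 := tsum_mul_tsum_eq_tsum_sum_antidiagonal_of_summable_norm n1 n2
  have h2 := (summable_norm_sum_mul_antidiagonal_of_summable_norm n1 n2).of_norm
  have h3 : HasSum (fun a => ∑ s ∈ Finset.HasAntidiagonal.antidiagonal a,
      ff x t.1 s.1 * ff x t.2 s.2) (wk x t.1 * wk x t.2) := by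
    have h4 := h2.hasSum
    rw [← h1] at h4
    exact h4
  have h5 := h3.mul_left (yy x)
  refine h5.congr_fun ?_
  intro a
  rw [Finset.sum_mul, Finset.mul_sum]
  exact Finset.sum_congr rfl fun s hs => ff_mul x m ht hs

theorem wk_rec (hx : 0 < x) (m : ℕ) : wk x (m + 2) = wk x (m + 3) +
    yy x * ∑ t ∈ Finset.HasAntidiagonal.antidiagonal m, wk x t.1 * wk x t.2 := by
  have h1 : HasSum (fun a => (if a = 0 then 0 else W (m + 3) (a - 1)) *
      yy x ^ ((a + (m + 2)) / 2)) (wk x (m + 3)) := by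
    have h2 : HasSum (ff x (m + 3)) (wk x (m + 3)) := (ff_summable hx (m + 3)).hasSum
    rw [← hasSum_nat_add_iff' 1]
    rw [Finset.sum_range_one, if_pos rfl, zero_mul, sub_zero]
    refine h2.congr_fun ?_
    intro a
    rw [if_neg (Nat.succ_ne_zero a), Nat.add_sub_cancel]
    unfold ff
    congr 3
    omega
  have h3 : HasSum (fun a => ∑ t ∈ Finset.HasAntidiagonal.antidiagonal m,
      (∑ s ∈ Finset.HasAntidiagonal.antidiagonal a, W t.1 s.1 * W t.2 s.2) *
      yy x ^ ((a + (m + 2)) / 2))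
      (∑ t ∈ Finset.HasAntidiagonal.antidiagonal m, yy x * (wk x t.1 * wk x t.2)) :=
    hasSum_sum fun t ht => ff_conv hx m ht
  have h4 := h1.add h3
  have h5 : HasSum (ff x (m + 2)) (wk x (m + 3) +
      ∑ t ∈ Finset.HasAntidiagonal.antidiagonal m, yy x * (wk x t.1 * wk x t.2)) := by
    refine h4.congr_fun ?_
    intro a
    unfold ff
    rw [tutW m a, ← Finset.sum_mul]
    ring
  rw [Finset.mul_sum]
  exact h5.tsum_eq

end SYS.Num
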